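import Pool.Agent.MP_e27144_an.AffMain

/-!
# Measures invariant under piecewise affine maps with one slope
-/

open Set Filter Topology MeasureTheory
open scoped ENNReal NNReal

namespace Pool.Agent.MP_e27144_an

/-- Density of a measure below a finite measure, with values in `[0,1]`. -/
lemma exists_density {ν η : Measure (AddCircle (1 : ℝ))} [IsFiniteMeasure ν] (hle : η ≤ ν) :
    ∃ w : AddCircle (1 : ℝ) → ℝ≥0∞, Measurable w ∧ (∀ y, w y ≤ 1) ∧ ν.withDensity w = η := by
  have hηfin : IsFiniteMeasure η := isFiniteMeasure_of_le ν hle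
  refine ⟨fun y => min (η.rnDeriv ν y) 1, (Measure.measurable_rnDeriv _ _).min measurable_const,
    fun y => min_le_right _ _, ?_⟩
  have hae : (fun y => min (η.rnDeriv ν y) 1) =ᵐ[ν] η.rnDeriv ν := by
    filter_upwards [Measure.rnDeriv_le_one_of_le hle] with x hx
    exact min_eq_left hx
  have hdec : η.HaveLebesgueDecomposition ν :=
    Measure.haveLebesgueDecomposition_of_sigmaFinite η ν
  rw [withDensity_congr_ae hae, Measure.withDensity_rnDeriv_eq _ _
    (Measure.absolutelyContinuous_of_le hle)]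

/-- Returns of positive measure for a measure preserving map. -/
lemma exists_return' {Ω : Type*} [MeasurableSpace Ω] {ν : Measure Ω} [IsFiniteMeasure ν]
    {S : Ω → Ω} (hS : MeasurePreserving S ν ν)
    {f : Ω → ℝ≥0∞} (hfm : Measurable f) (hf1 : ∀ x, f x ≤ 1)
    (hf0 : ∫⁻ x, f x ∂ν ≠ 0) :
    ∃ r : ℝ≥0∞, r ≠ 0 ∧ ∀ a : ℕ, ∃ b, a ≤ b ∧ r ≤ ∫⁻ x, f x * f (S^[b] x) ∂ν := by
  have hftop : ∀ x, f x ≠ ∞ := fun x => ne_top_of_le_ne_top ENNReal.one_ne_top (hf1 x)
  have hfin : ∀ {g : Ω → ℝ≥0∞}, (∀ x, g x ≤ 1) → ∫⁻ x, g x ∂ν ≠ ∞ := by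
    intro g hg
    refine ne_top_of_le_ne_top (measure_ne_top ν univ) ?_
    calc ∫⁻ x, g x ∂ν ≤ ∫⁻ _x, 1 ∂ν := lintegral_mono fun x => hg x
      _ = ν univ := by simp
  have hρ : 0 < (∫⁻ x, f x ∂ν).toReal := ENNReal.toReal_pos hf0 (hfin hf1)
  obtain ⟨r, hr, hr'⟩ := exists_integral_mul_ge ν hρ
  refine ⟨ENNReal.ofReal r, by simpa using hr, fun a => ?_⟩
  have hF : ∀ n : ℕ, Measurable fun x : Ω => f (S^[(a + 1) * n] x) :=
    fun n => hfm.comp (hS.iterate _).measurable
  obtain ⟨i, j, -, hij, hrij⟩ := hr' (fun n x => (f (S^[(a + 1) * n] x)).toReal)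
    (fun n => (hF n).ennreal_toReal) (fun n x => ENNReal.toReal_nonneg)
    (fun n x => by
      have := ENNReal.toReal_mono ENNReal.one_ne_top (hf1 (S^[(a + 1) * n] x))
      simpa using this)
    (fun n => by
      have h1 : ∫ x, (f (S^[(a + 1) * n] x)).toReal ∂ν = (∫⁻ x, f x ∂ν).toReal := by
        rw [integral_toReal (hF n).aemeasurable
          (Eventually.of_forall fun x => (hftop _).lt_top), (hS.iterate _).lintegral_comp hfm]
      rw [h1]) 0
  refine ⟨(a + 1) * (j - i), ?_, ?_⟩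
  · have : 1 ≤ j - i := by omega
    nlinarith
  have hprod : Measurable fun x : Ω => f (S^[(a + 1) * i] x) * f (S^[(a + 1) * j] x) :=
    (hF i).mul (hF j)
  have hprod2 : Measurable fun x : Ω => f x * f (S^[(a + 1) * (j - i)] x) :=
    hfm.mul (hF (j - i))
  have h1 : ∫ x, (f (S^[(a + 1) * i] x)).toReal * (f (S^[(a + 1) * j] x)).toReal ∂ν
      = (∫⁻ x, f x * f (S^[(a + 1) * (j - i)] x) ∂ν).toReal := by
    simp_rw [← ENNReal.toReal_mul]
    rw [integral_toReal hprod.aemeasurable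
      (Eventually.of_forall fun x => (ENNReal.mul_ne_top (hftop _) (hftop _)).lt_top)]
    congr 1
    have h2 : ∀ x : Ω, S^[(a + 1) * j] x = S^[(a + 1) * (j - i)] (S^[(a + 1) * i] x) := by
      intro x
      rw [← Function.iterate_add_apply, ← mul_add]
      congr 2
      omega
    simp_rw [h2]
    exact (hS.iterate _).lintegral_comp hprod2
  rw [h1] at hrij
  exact (ENNReal.ofReal_le_iff_le_toReal (hfin fun x => mul_le_one' (hf1 _) (hf1 _))).mpr hrij

/-- Iterates of an affine cocycle with countably many values. -/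
lemma iterate_affine {Ω : Type*} {S : Ω → Ω} {g : Ω → AddCircle (1 : ℝ)} {B : Set (ℝ × ℝ)}
    (hB : B.Countable) (hS : ∀ x, ∃ p ∈ B, g (S x) = aff p.1 p.2 (g x)) (b : ℕ) :
    ∃ Y : Set (ℝ × ℝ), Y.Countable ∧ ∀ x, ∃ p ∈ Y, g (S^[b] x) = aff p.1 p.2 (g x) := by
  induction b with
  | zero =>
    refine ⟨{(1, 0)}, countable_singleton _, fun x => ⟨(1, 0), rfl, ?_⟩⟩
    simp only [Function.iterate_zero, id_eq, aff, one_mul, add_zero]
    exact (coe_rep (g x)).symm
  | succ n ih =>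
    obtain ⟨Y, hY, hYS⟩ := ih
    refine ⟨(fun p : ((ℝ × ℝ) × (ℝ × ℝ)) × ℤ =>
      (p.1.2.1 * p.1.1.1, p.1.2.1 * (p.1.1.2 - p.2) + p.1.2.2)) '' ((Y ×ˢ B) ×ˢ univ),
      ((hY.prod hB).prod countable_univ).image _, fun x => ?_⟩
    obtain ⟨y, hy, hyx⟩ := hYS x
    obtain ⟨z, hz, hzx⟩ := hS (S^[n] x)
    -- the representative of the iterate
    have h1 : ((rep (g (S^[n] x)) : ℝ) : AddCircle (1 : ℝ)) =
        ((y.1 * rep (g x) + y.2 : ℝ) : AddCircle (1 : ℝ)) := by
      rw [coe_rep, hyx]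
      rfl
    obtain ⟨m, hm⟩ : ∃ m : ℤ, (y.1 * rep (g x) + y.2) - rep (g (S^[n] x)) = m := by
      have h2 : (((y.1 * rep (g x) + y.2) - rep (g (S^[n] x)) : ℝ) : AddCircle (1 : ℝ)) = 0 := by
        rw [AddCircle.coe_sub, h1, sub_self]
      rw [AddCircle.coe_eq_zero_iff] at h2
      obtain ⟨m, hm⟩ := h2
      exact ⟨m, by rw [← hm]; simp⟩
    refine ⟨(z.1 * y.1, z.1 * (y.2 - m) + z.2), ⟨((y, z), m), ⟨⟨hy, hz⟩, mem_univ _⟩, rfl⟩, ?_⟩
    rw [Function.iterate_succ_apply', hzx]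
    unfold aff
    congr 1
    have h3 : rep (g (S^[n] x)) = y.1 * rep (g x) + y.2 - m := by linarith
    rw [h3]
    ring

/-- The law of a process driven by an affine cocycle with countably many values, whose long time
composites are typically not rational, is singular to atomless singular measures invariant under
`×2` and `×3`. -/
theorem cocycle_singular {σ : Measure (AddCircle (1 : ℝ))} [IsFiniteMeasure σ]
    (h2 : MeasurePreserving (fun x : AddCircle (1 : ℝ) => (2 : ℕ) • x) σ σ)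
    (h3 : MeasurePreserving (fun x : AddCircle (1 : ℝ) => (3 : ℕ) • x) σ σ)
    (hs : σ ⟂ₘ volume) (hat : ∀ x, σ {x} = 0)
    {Ω : Type*} [MeasurableSpace Ω] {ν : Measure Ω} [IsFiniteMeasure ν]
    {S : Ω → Ω} (hSν : MeasurePreserving S ν ν) {g : Ω → AddCircle (1 : ℝ)} (hg : Measurable g)
    {B : Set (ℝ × ℝ)} (hB : B.Countable) (hS : ∀ x, ∃ p ∈ B, g (S x) = aff p.1 p.2 (g x))
    (hR : Tendsto (fun b : ℕ => ν {x | ∃ p q : ℚ, g (S^[b] x) = aff p q (g x)}) atTop (𝓝 0)) :
    σ ⟂ₘ ν.map g := by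
  by_contra hcon
  have hcon' : ¬ Disjoint σ (ν.map g) := fun h =>
    hcon (Measure.mutuallySingular_iff_disjoint.mpr h)
  rw [disjoint_iff] at hcon'
  have hν'fin : IsFiniteMeasure (ν.map g) := Measure.isFiniteMeasure_map ν g
  obtain ⟨w, hwm, hw1, hw⟩ := exists_density (inf_le_right : σ ⊓ ν.map g ≤ ν.map g)
  set f : Ω → ℝ≥0∞ := fun x => w (g x) with hf
  have hfm : Measurable f := hwm.comp hg
  have hf1 : ∀ x, f x ≤ 1 := fun x => hw1 _
  have hθg : (ν.withDensity f).map g = σ ⊓ ν.map g := by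
    rw [← hw]
    ext A hA
    rw [Measure.map_apply hg hA, withDensity_apply _ (hg hA), withDensity_apply _ hA,
      setLIntegral_map hA hwm hg]
  have hf0 : ∫⁻ x, f x ∂ν ≠ 0 := by
    intro h0
    apply hcon'
    apply Measure.measure_univ_eq_zero.mp
    rw [← hθg, Measure.map_apply hg MeasurableSet.univ, preimage_univ,
      withDensity_apply _ MeasurableSet.univ, Measure.restrict_univ]
    exact h0
  have hθσ : (ν.withDensity f).map g ≤ σ := by rw [hθg]; exact inf_le_left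
  obtain ⟨r, hr0, hr⟩ := exists_return' hSν hfm hf1 hf0
  have hev : ∀ᶠ b in atTop, ν {x | ∃ p q : ℚ, g (S^[b] x) = aff p q (g x)} < r :=
    hR.eventually (gt_mem_nhds (pos_iff_ne_zero.mpr hr0))
  obtain ⟨b₀, hb₀⟩ := eventually_atTop.mp hev
  obtain ⟨b, hb, hrb⟩ := hr b₀
  have hlt := hb₀ b hb
  obtain ⟨Y, hY, hYS⟩ := iterate_affine hB hS b
  set h : Ω → ℝ≥0∞ := fun x => f x * f (S^[b] x) with hh
  have hSb := (hSν.iterate b)
  have hSm := hSb.measurable
  set ζ := ν.withDensity h with hζ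
  have hζν : ζ ≤ ν := by
    calc ζ ≤ ν.withDensity (fun _ => 1) :=
          withDensity_mono (Eventually.of_forall fun x => mul_le_one' (hf1 _) (hf1 _))
      _ = ν := withDensity_one
  -- the pieces
  set E : ℝ × ℝ → Set Ω := fun p => {x | g (S^[b] x) = aff p.1 p.2 (g x)} with hE
  have hEm : ∀ y, MeasurableSet (E y) := fun y =>
    measurableSet_eq_fun (hg.comp hSm) ((measurable_aff _ _).comp hg)
  have hnull : ∀ y ∈ {y ∈ Y | Irrational y.1 ∨ Irrational y.2}, ζ (E y) = 0 := by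
    intro y hyY
    set τ := ζ.restrict (E y) with hτ
    have hτθ : τ ≤ ν.withDensity f := by
      refine Measure.restrict_le_self.trans ?_
      exact withDensity_mono (Eventually.of_forall fun x => mul_le_of_le_one_right zero_le (hf1 _))
    have hτσ : τ.map g ≤ σ := (Measure.map_mono hτθ hg).trans hθσ
    have hτS : (τ.map (S^[b])).map g ≤ σ := by
      refine le_trans (Measure.map_mono ?_ hg) hθσ
      refine Measure.le_iff.mpr fun A hA => ?_
      rw [Measure.map_apply hSm hA]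
      calc τ (S^[b] ⁻¹' A) ≤ ζ (S^[b] ⁻¹' A) := Measure.restrict_le_self _
        _ = ∫⁻ x in S^[b] ⁻¹' A, f x * f (S^[b] x) ∂ν := withDensity_apply _ (hSm hA)
        _ ≤ ∫⁻ x in S^[b] ⁻¹' A, f (S^[b] x) ∂ν :=
            lintegral_mono fun x => mul_le_of_le_one_left zero_le (hf1 _)
        _ = ∫⁻ x in A, f x ∂ν := hSb.setLIntegral_comp_preimage hA hfm
        _ = (ν.withDensity f) A := (withDensity_apply _ hA).symm
    have hτa : (τ.map (S^[b])).map g = (τ.map g).map (aff y.1 y.2) := by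
      rw [Measure.map_map hg hSm, Measure.map_map (measurable_aff _ _) hg]
      apply Measure.map_congr
      exact ae_restrict_mem (hEm y)
    have hle1 : (τ.map g).map (aff y.1 y.2) ≤ σ := hτa ▸ hτS
    have hle2 : (τ.map g).map (aff y.1 y.2) ≤ σ.map (aff y.1 y.2) :=
      Measure.map_mono hτσ (measurable_aff _ _)
    have hsing := aff_singular h2 h3 hs (M := 2) (by norm_num) h2 h2 (s := y.1) (c := y.2)
      hyY.2 (fun _ => hat)
    have hdis := disjoint_iff.mp (Measure.mutuallySingular_iff_disjoint.mp hsing)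
    have hz : (τ.map g).map (aff y.1 y.2) = 0 := by
      have := le_inf hle1 hle2
      rw [hdis] at this
      exact le_antisymm this (Measure.zero_le _)
    have hz' : τ univ = 0 := by
      have : ((τ.map g).map (aff y.1 y.2)) univ = 0 := by rw [hz]; simp
      rwa [Measure.map_apply (measurable_aff _ _) MeasurableSet.univ, preimage_univ,
        Measure.map_apply hg MeasurableSet.univ, preimage_univ] at this
    rw [hτ, Measure.restrict_apply_univ] at hz'
    exact hz'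
  have hcov : (univ : Set Ω) ⊆ {x | ∃ p q : ℚ, g (S^[b] x) = aff p q (g x)} ∪
      ⋃ y ∈ {y ∈ Y | Irrational y.1 ∨ Irrational y.2}, E y := by
    intro x _
    obtain ⟨y, hy, hyx⟩ := hYS x
    by_cases hirr : Irrational y.1 ∨ Irrational y.2
    · exact Or.inr (mem_biUnion (show y ∈ {y ∈ Y | Irrational y.1 ∨ Irrational y.2} from
        ⟨hy, hirr⟩) hyx)
    · left
      push Not at hirr
      obtain ⟨h1, h2⟩ := hirr
      unfold Irrational at h1 h2
      push Not at h1 h2
      obtain ⟨p, hp⟩ := h1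
      obtain ⟨q, hq⟩ := h2
      exact ⟨p, q, by rw [hp, hq]; exact hyx⟩
  have hzero : ζ (⋃ y ∈ {y ∈ Y | Irrational y.1 ∨ Irrational y.2}, E y) = 0 :=
    (measure_biUnion_null_iff (hY.mono (fun y hy => hy.1))).mpr hnull
  have hfinal : r ≤ ν {x | ∃ p q : ℚ, g (S^[b] x) = aff p q (g x)} := by
    calc r ≤ ∫⁻ x, f x * f (S^[b] x) ∂ν := hrb
      _ = ζ univ := by
          rw [hζ, withDensity_apply _ MeasurableSet.univ, Measure.restrict_univ]
      _ ≤ ζ ({x | ∃ p q : ℚ, g (S^[b] x) = aff p q (g x)} ∪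
          ⋃ y ∈ {y ∈ Y | Irrational y.1 ∨ Irrational y.2}, E y) := measure_mono hcov
      _ ≤ ζ {x | ∃ p q : ℚ, g (S^[b] x) = aff p q (g x)} +
          ζ (⋃ y ∈ {y ∈ Y | Irrational y.1 ∨ Irrational y.2}, E y) := measure_union_le _ _
      _ = ζ {x | ∃ p q : ℚ, g (S^[b] x) = aff p q (g x)} := by rw [hzero, add_zero]
      _ ≤ ν {x | ∃ p q : ℚ, g (S^[b] x) = aff p q (g x)} := hζν _
  exact absurd hfinal (not_le.mpr hlt)

end Pool.Agent.MP_e27144_an
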