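import Pool.Agent.MP_e27144_an.AffLin

/-!
# Affine images of an arbitrary finite measure on the line
-/

open Set Filter Topology MeasureTheory
open scoped ENNReal NNReal

namespace Pool.Agent.MP_e27144_an

/-- The affine map of the line into the circle. -/
noncomputable def affR (p : ℝ × ℝ) (x : ℝ) : AddCircle (1 : ℝ) :=
  ((p.1 * x + p.2 : ℝ) : AddCircle (1 : ℝ))

lemma measurable_affR (p : ℝ × ℝ) : Measurable (affR p) :=
  (AddCircle.measurable_mk' (a := (1 : ℝ))).comp ((measurable_id.const_mul p.1).add_const p.2)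

/-- The orbit of a pair of coefficients under rational affine maps. -/
def ratOrbit (p : ℝ × ℝ) : Set (ℝ × ℝ) :=
  range fun u : ℚ × ℚ => ((u.1 : ℝ) * p.1, (u.1 : ℝ) * p.2 + (u.2 : ℝ))

lemma countable_ratOrbit (p : ℝ × ℝ) : (ratOrbit p).Countable := countable_range _

/-- The measures with a common part give coefficients in one rational orbit. -/
lemma mem_ratOrbit {σ : Measure (AddCircle (1 : ℝ))} [IsFiniteMeasure σ]
    (h2 : MeasurePreserving (fun x : AddCircle (1 : ℝ) => (2 : ℕ) • x) σ σ)
    (h3 : MeasurePreserving (fun x : AddCircle (1 : ℝ) => (3 : ℕ) • x) σ σ)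
    (hs : σ ⟂ₘ volume) (hat : ∀ x, σ {x} = 0) {ζ : Measure ℝ} (hζ : ζ ≠ 0) {p p' : ℝ × ℝ}
    (h : ζ.map (affR p) ≤ σ) (h' : ζ.map (affR p') ≤ σ) : p' ∈ ratOrbit p := by
  by_contra hno
  -- the first coefficient is not zero
  have hp0 : p.1 ≠ 0 := by
    intro h0
    apply hζ
    have h1 : ζ.map (affR p) {((p.2 : ℝ) : AddCircle (1 : ℝ))} = 0 :=
      le_antisymm ((h _).trans (hat _).le) zero_le
    rw [Measure.map_apply (measurable_affR p) (measurableSet_singleton _)] at h1
    have h2 : affR p ⁻¹' {((p.2 : ℝ) : AddCircle (1 : ℝ))} = univ := by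
      ext x
      simp [affR, h0]
    rw [h2] at h1
    exact Measure.measure_univ_eq_zero.mp h1
  set β : ℝ := p'.1 / p.1 with hβ
  set z : ℤ → ℝ := fun m => β * (m - p.2) + p'.2 with hz
  set E : ℤ → Set ℝ := fun m => {x | affR p' x = aff β (z m) (affR p x)} with hE
  have hEm : ∀ m, MeasurableSet (E m) := fun m =>
    measurableSet_eq_fun (measurable_affR p') ((measurable_aff _ _).comp (measurable_affR p))
  have hcov : (univ : Set ℝ) ⊆ ⋃ m, E m := by
    intro x _
    have h2 : ((p.1 * x + p.2 - rep (affR p x) : ℝ) : AddCircle (1 : ℝ)) = 0 := by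
      rw [AddCircle.coe_sub, coe_rep]
      exact sub_self _
    rw [AddCircle.coe_eq_zero_iff] at h2
    obtain ⟨m, hm⟩ := h2
    rw [zsmul_eq_mul, mul_one] at hm
    refine mem_iUnion.mpr ⟨m, ?_⟩
    have e1 : rep (affR p x) = p.1 * x + p.2 - m := by linarith
    show affR p' x = aff β (z m) (affR p x)
    unfold aff
    rw [e1]
    show ((p'.1 * x + p'.2 : ℝ) : AddCircle (1 : ℝ)) = _
    congr 1
    rw [hz, hβ]
    field_simp
    ring
  have hnull : ∀ m, ζ (E m) = 0 := by
    intro m
    by_contra hm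
    set τ := (ζ.restrict (E m)).map (affR p) with hτ
    have h1 : τ ≤ σ := (Measure.map_mono Measure.restrict_le_self (measurable_affR p)).trans h
    have h4 : τ.map (aff β (z m)) ≤ σ := by
      have e : τ.map (aff β (z m)) = (ζ.restrict (E m)).map (affR p') := by
        rw [hτ, Measure.map_map (measurable_aff _ _) (measurable_affR p)]
        apply Measure.map_congr
        filter_upwards [ae_restrict_mem (hEm m)] with x hx
        exact hx.symm
      rw [e]
      exact (Measure.map_mono Measure.restrict_le_self (measurable_affR p')).trans h'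
    have h5 : τ ≠ 0 := by
      intro h0
      apply hm
      have : τ univ = 0 := by rw [h0]; simp
      rwa [hτ, Measure.map_apply (measurable_affR p) MeasurableSet.univ, preimage_univ,
        Measure.restrict_apply_univ] at this
    by_cases hirr : Irrational β ∨ Irrational (z m)
    · exact h5 (sym_null h2 h3 hs hirr (fun _ => hat) h1 h4)
    · push Not at hirr
      obtain ⟨g1, g2⟩ := hirr
      unfold Irrational at g1 g2
      push Not at g1 g2
      obtain ⟨u, hu⟩ := g1
      obtain ⟨v, hv⟩ := g2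
      apply hno
      refine ⟨(u, v - u * m), ?_⟩
      apply Prod.ext
      · simp only
        rw [hu, hβ]
        field_simp
      · simp only
        push_cast
        rw [hu, hv, hz]
        simp only
        ring
  apply hζ
  rw [← Measure.measure_univ_eq_zero]
  exact measure_mono_null hcov (measure_iUnion_null hnull)

/-- **Countably many exceptions.** -/
theorem countable_affine {σ : Measure (AddCircle (1 : ℝ))} [IsFiniteMeasure σ]
    (h2 : MeasurePreserving (fun x : AddCircle (1 : ℝ) => (2 : ℕ) • x) σ σ)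
    (h3 : MeasurePreserving (fun x : AddCircle (1 : ℝ) => (3 : ℕ) • x) σ σ)
    (hs : σ ⟂ₘ volume) (hat : ∀ x, σ {x} = 0) (ν : Measure ℝ) [IsFiniteMeasure ν] :
    {p : ℝ × ℝ | ¬ σ ⟂ₘ ν.map (affR p)}.Countable := by
  set Z : Set (ℝ × ℝ) := {p | ¬ σ ⟂ₘ ν.map (affR p)} with hZ
  have hex : ∀ p : Z, ∃ f : ℝ → ℝ≥0∞, Measurable f ∧ (∀ x, f x ≤ 1) ∧ (∫⁻ x, f x ∂ν ≠ 0) ∧
      (ν.withDensity f).map (affR p) ≤ σ := fun p => exists_common (measurable_affR _) p.2
  choose f hfm hf1 hf0 hfσ using hex
  have hftop : ∀ p x, f p x ≠ ∞ := fun p x => ne_top_of_le_ne_top ENNReal.one_ne_top (hf1 p x)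
  have hfin : ∀ {g : ℝ → ℝ≥0∞}, (∀ x, g x ≤ 1) → ∫⁻ x, g x ∂ν ≠ ∞ := by
    intro g hg
    refine ne_top_of_le_ne_top (measure_ne_top ν univ) ?_
    calc ∫⁻ x, g x ∂ν ≤ ∫⁻ _x, 1 ∂ν := lintegral_mono fun x => hg x
      _ = ν univ := by simp
  set Zn : ℕ → Set Z := fun n => {p | 1 / ((n : ℝ) + 1) ≤ (∫⁻ x, f p x ∂ν).toReal} with hZn
  have hcount : ∀ n, (Zn n).Countable := by
    intro n
    by_contra hunc
    obtain ⟨u, hu, hur⟩ := exists_seq_of_forall_finset_exists (fun p : Z => p ∈ Zn n)
      (fun p p' => (p' : ℝ × ℝ) ∉ ratOrbit p) (by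
        intro F _
        have hc : (Subtype.val ⁻¹' (⋃ p ∈ F, ratOrbit (p : ℝ × ℝ)) : Set Z).Countable := by
          refine Set.Countable.preimage_of_injOn ?_ Subtype.val_injective.injOn
          exact (F.countable_toSet).biUnion fun p _ => countable_ratOrbit _
        by_contra hno
        push Not at hno
        apply hunc
        refine hc.mono fun y hy => ?_
        obtain ⟨p, hp, hpy⟩ := hno y hy
        exact mem_preimage.mpr (mem_biUnion hp hpy))
    have hρ : 0 < 1 / ((n : ℝ) + 1) := by positivity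
    obtain ⟨r, hr, hr'⟩ := exists_integral_mul_ge ν hρ
    obtain ⟨i, j, -, hij, hrij⟩ := hr' (fun n x => (f (u n) x).toReal)
      (fun n => (hfm (u n)).ennreal_toReal) (fun n x => ENNReal.toReal_nonneg)
      (fun n x => by
        have := ENNReal.toReal_mono ENNReal.one_ne_top (hf1 (u n) x)
        simpa using this)
      (fun k => by
        have h1 : ∫ x, (f (u k) x).toReal ∂ν = (∫⁻ x, f (u k) x ∂ν).toReal :=
          integral_toReal (hfm (u k)).aemeasurable
            (Eventually.of_forall fun x => (hftop _ _).lt_top)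
        show 1 / ((n : ℝ) + 1) ≤ ∫ x, (f (u k) x).toReal ∂ν
        rw [h1]
        exact hu k) 0
    set ζ := ν.withDensity (fun x => f (u i) x * f (u j) x) with hζ
    have hζ0 : ζ ≠ 0 := by
      intro h0
      have h1 : ∫⁻ x, f (u i) x * f (u j) x ∂ν = 0 := by
        have : ζ univ = 0 := by rw [h0]; simp
        rwa [hζ, withDensity_apply _ MeasurableSet.univ, Measure.restrict_univ] at this
      have h2 : ∫ x, (f (u i) x).toReal * (f (u j) x).toReal ∂ν =
          (∫⁻ x, f (u i) x * f (u j) x ∂ν).toReal := by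
        simp_rw [← ENNReal.toReal_mul]
        exact integral_toReal ((hfm _).mul (hfm _)).aemeasurable
          (Eventually.of_forall fun x => (ENNReal.mul_ne_top (hftop _ _) (hftop _ _)).lt_top)
      rw [h2, h1, ENNReal.toReal_zero] at hrij
      exact absurd hrij (not_le.mpr hr)
    have hle1 : ζ ≤ ν.withDensity (f (u i)) :=
      withDensity_mono (Eventually.of_forall fun x => mul_le_of_le_one_right zero_le (hf1 _ _))
    have hle2 : ζ ≤ ν.withDensity (f (u j)) :=
      withDensity_mono (Eventually.of_forall fun x => mul_le_of_le_one_left zero_le (hf1 _ _))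
    exact hur i j hij (mem_ratOrbit h2 h3 hs hat hζ0
      ((Measure.map_mono hle1 (measurable_affR _)).trans (hfσ _))
      ((Measure.map_mono hle2 (measurable_affR _)).trans (hfσ _)))
  have hall : (univ : Set Z).Countable := by
    refine (countable_iUnion hcount).mono fun p _ => ?_
    have hpos : 0 < (∫⁻ x, f p x ∂ν).toReal := ENNReal.toReal_pos (hf0 p) (hfin (hf1 p))
    obtain ⟨n, hn⟩ := exists_nat_one_div_lt hpos
    exact mem_iUnion.mpr ⟨n, hn.le⟩
  have := hall.image (Subtype.val : Z → ℝ × ℝ)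
  rwa [image_univ, Subtype.range_coe] at this

end Pool.Agent.MP_e27144_an
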