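import Pool.Agent.MP_e27144_an.AffLin

/-!
# Linear images of measures on tori and stationary processes: final statements
-/

open Set Filter Topology MeasureTheory
open scoped ENNReal NNReal

namespace Pool.Agent.MP_e27144_an

/-- The rational points of the circle. -/
def ratSet : Set (AddCircle (1 : ℝ)) := range fun q : ℚ => ((q : ℝ) : AddCircle (1 : ℝ))

lemma countable_ratSet : ratSet.Countable := countable_range _

lemma mem_ratSet_of_nsmul_mem {n : ℕ} (hn : 0 < n) {x : AddCircle (1 : ℝ)}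
    (h : n • x ∈ ratSet) : x ∈ ratSet := by
  obtain ⟨q, hq⟩ := h
  have h1 : ((n * rep x - q : ℝ) : AddCircle (1 : ℝ)) = 0 := by
    rw [AddCircle.coe_sub]
    simp only at hq
    rw [hq, sub_eq_zero]
    conv_rhs => rw [← coe_rep x]
    rw [← AddCircle.coe_nsmul, nsmul_eq_mul]
  rw [AddCircle.coe_eq_zero_iff] at h1
  obtain ⟨m, hm⟩ := h1
  rw [zsmul_eq_mul, mul_one] at hm
  have hn' : (n : ℝ) ≠ 0 := by exact_mod_cast hn.ne'
  refine ⟨(m + q) / n, ?_⟩
  simp only
  rw [← coe_rep x]
  congr 1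
  push_cast
  rw [div_eq_iff hn', hm]
  ring

lemma nsmul_mem_ratSet (n : ℕ) {x : AddCircle (1 : ℝ)} (h : x ∈ ratSet) : n • x ∈ ratSet := by
  obtain ⟨q, rfl⟩ := h
  refine ⟨n * q, ?_⟩
  simp only
  rw [← AddCircle.coe_nsmul, nsmul_eq_mul]
  push_cast
  rfl

lemma preimage_ratSet {n : ℕ} (hn : 0 < n) :
    (fun x : AddCircle (1 : ℝ) => n • x) ⁻¹' ratSetᶜ = ratSetᶜ := by
  ext x
  simp only [mem_preimage, mem_compl_iff]
  exact not_congr ⟨mem_ratSet_of_nsmul_mem hn, nsmul_mem_ratSet n⟩

/-- The atoms of a finite measure invariant under `×2` are rational. -/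
lemma atom_rational {σ : Measure (AddCircle (1 : ℝ))} [IsFiniteMeasure σ]
    (h2 : MeasurePreserving (fun x : AddCircle (1 : ℝ) => (2 : ℕ) • x) σ σ)
    {x : AddCircle (1 : ℝ)} (hx : x ∉ ratSet) : σ {x} = 0 := by
  by_contra h0
  have h1 : ∀ n : ℕ, σ {x} ≤ σ {(2 ^ n : ℕ) • x} := by
    intro n
    have hm := mp_pow_one h2 n
    calc σ {x} ≤ σ ((fun x : AddCircle (1 : ℝ) => (2 ^ n : ℕ) • x) ⁻¹' {(2 ^ n : ℕ) • x}) := by
          apply measure_mono
          intro y hy
          rw [mem_singleton_iff] at hy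
          rw [hy]
          exact rfl
      _ = σ {(2 ^ n : ℕ) • x} :=
          hm.measure_preimage (measurableSet_singleton _).nullMeasurableSet
  have hinj : Function.Injective fun n : ℕ => (2 ^ n : ℕ) • x := by
    intro a b hab
    simp only at hab
    by_contra hne
    wlog hlt : a < b generalizing a b
    · exact this hab.symm (Ne.symm hne) (lt_of_le_of_ne (not_lt.mp hlt) (Ne.symm hne))
    have h3 : (2 ^ b - 2 ^ a : ℕ) • x = 0 := by
      rw [sub_nsmul _ (Nat.pow_le_pow_right (by norm_num) hlt.le), ← hab]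
      simp
    have h4 : 0 < 2 ^ b - 2 ^ a := by
      have := Nat.pow_lt_pow_right (a := 2) (by norm_num) hlt
      omega
    apply hx
    apply mem_ratSet_of_nsmul_mem h4
    rw [h3]
    exact ⟨0, by simp⟩
  have hfin := Measure.finite_const_le_meas_of_disjoint_iUnion σ
    (pos_iff_ne_zero.mpr h0) (As := fun n : ℕ => {(2 ^ n : ℕ) • x})
    (fun n => measurableSet_singleton _)
    (fun a b hab => by
      rw [Function.onFun, disjoint_singleton]
      exact fun h => hab (hinj h))
    (measure_ne_top _ _)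
  apply Set.infinite_univ (α := ℕ)
  refine hfin.subset fun n _ => h1 n

lemma coe_sum' {k : ℕ} (f : Fin k → ℝ) :
    ((∑ i, f i : ℝ) : AddCircle (1 : ℝ)) = ∑ i, (f i : AddCircle (1 : ℝ)) :=
  map_sum (QuotientAddGroup.mk' (AddSubgroup.zmultiples (1 : ℝ))) f Finset.univ

/-- **Processes.** -/
theorem process_singular {σ : Measure (AddCircle (1 : ℝ))} [IsFiniteMeasure σ]
    (h2 : MeasurePreserving (fun x : AddCircle (1 : ℝ) => (2 : ℕ) • x) σ σ)
    (h3 : MeasurePreserving (fun x : AddCircle (1 : ℝ) => (3 : ℕ) • x) σ σ)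
    (hs : σ ⟂ₘ volume)
    {Ω : Type*} [MeasurableSpace Ω] {ν : Measure Ω} [IsFiniteMeasure ν]
    {S : Ω → Ω} (hSν : MeasurePreserving S ν ν) {g : Ω → AddCircle (1 : ℝ)} (hg : Measurable g)
    {Y : ℕ → Ω → ℝ × ℝ} (hY : ∀ b, (range (Y b)).Countable)
    (hat : ∀ x, σ {x} = 0 ∨ ν (g ⁻¹' {x}) = 0)
    (hS : ∀ b x, g (S^[b] x) = aff (Y b x).1 (Y b x).2 (g x))
    (hR : Tendsto (fun b : ℕ => ν {x | ∃ p q : ℚ, Y b x = ((p : ℝ), (q : ℝ))}) atTop (𝓝 0)) :
    σ ⟂ₘ ν.map g := by
  have hQm : MeasurableSet ratSet := countable_ratSet.measurableSet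
  have hdec : σ = σ.restrict ratSet + σ.restrict ratSetᶜ :=
    (Measure.restrict_add_restrict_compl hQm).symm
  rw [hdec, Measure.MutuallySingular.add_left_iff]
  constructor
  · -- the atomic part
    set A : Set (AddCircle (1 : ℝ)) := {x ∈ ratSet | σ {x} ≠ 0} with hA
    have hAc : A.Countable := countable_ratSet.mono fun x hx => hx.1
    refine ⟨Aᶜ, hAc.measurableSet.compl, ?_, ?_⟩
    · rw [Measure.restrict_apply hAc.measurableSet.compl]
      have hsub : Aᶜ ∩ ratSet ⊆ ⋃ x ∈ {x ∈ ratSet | σ {x} = 0}, {x} := by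
        rintro x ⟨hx1, hx2⟩
        refine mem_biUnion (x := x) ⟨hx2, ?_⟩ rfl
        by_contra h
        exact hx1 ⟨hx2, h⟩
      refine measure_mono_null hsub ?_
      exact (measure_biUnion_null_iff (countable_ratSet.mono fun x hx => hx.1)).mpr
        fun x hx => hx.2
    · rw [compl_compl, Measure.map_apply hg hAc.measurableSet]
      have hsub : g ⁻¹' A ⊆ ⋃ x ∈ A, g ⁻¹' {x} := by
        intro w hw
        exact mem_biUnion (x := g w) hw rfl
      refine measure_mono_null hsub ?_
      refine (measure_biUnion_null_iff hAc).mpr fun x hx => ?_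
      exact (hat x).resolve_left hx.2
  · -- the atomless part
    have i2 := h2.restrict_preimage hQm.compl
    have i3 := h3.restrict_preimage hQm.compl
    rw [preimage_ratSet (by norm_num)] at i2 i3
    have hs' : σ.restrict ratSetᶜ ⟂ₘ volume := hs.mono_ac
      (Measure.absolutelyContinuous_of_le Measure.restrict_le_self) Measure.AbsolutelyContinuous.rfl
    have hno : ∀ x, (σ.restrict ratSetᶜ) {x} = 0 := by
      intro x
      by_cases hx : x ∈ ratSet
      · rw [Measure.restrict_apply (measurableSet_singleton x)]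
        have : {x} ∩ ratSetᶜ = ∅ := by
          ext y
          simp only [mem_inter_iff, mem_singleton_iff, mem_compl_iff, mem_empty_iff_false,
            iff_false, not_and, not_not]
          rintro rfl
          exact hx
        rw [this, measure_empty]
      · exact measure_mono_null (fun y hy => hy) (le_antisymm
          ((Measure.restrict_apply_le _ _).trans (atom_rational h2 hx).le) zero_le)
    exact process_singular' i2 i3 hs' hSν hg hY (fun _ _ _ => hno) hS hR

/-- **Linear images.** -/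
theorem lin_singular {σ : Measure (AddCircle (1 : ℝ))} [IsFiniteMeasure σ]
    (h2 : MeasurePreserving (fun x : AddCircle (1 : ℝ) => (2 : ℕ) • x) σ σ)
    (h3 : MeasurePreserving (fun x : AddCircle (1 : ℝ) => (3 : ℕ) • x) σ σ)
    (hs : σ ⟂ₘ volume) {k m : ℕ} (hm : 1 < m) {ν : Measure (Fin k → AddCircle (1 : ℝ))}
    [IsFiniteMeasure ν] (hν : MeasurePreserving (fun x : Fin k → AddCircle (1 : ℝ) => m • x) ν ν)
    {s : Fin k → ℝ} {c : ℝ} (hsc : (∃ i, Irrational (s i)) ∨ Irrational c)
    (hat : (∃ i, Irrational (s i)) → ∀ n : Fin k → ℤ, n ≠ 0 → ∀ y,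
      ν {x | ∑ i, n i • x i = y} = 0) :
    σ ⟂ₘ ν.map (lin s c) := by
  have hiter : ∀ (b : ℕ) (x : Fin k → AddCircle (1 : ℝ)),
      (fun x : Fin k → AddCircle (1 : ℝ) => m • x)^[b] x = (m ^ b) • x := by
    intro b
    induction b with
    | zero => intro x; simp
    | succ n ih =>
      intro x
      rw [Function.iterate_succ_apply', ih, smul_smul, pow_succ']
  set Y : ℕ → (Fin k → AddCircle (1 : ℝ)) → ℝ × ℝ := fun b x =>
    (((m ^ b : ℕ) : ℝ), -(∑ i, s i * dig (m ^ b) (x i) + (((m ^ b : ℕ) : ℝ) - 1) * c)) with hY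
  refine process_singular' h2 h3 hs hν (measurable_lin s c) (Y := Y) ?_ ?_ ?_ ?_
  · intro b
    have : Y b = (fun d : Fin k → ℕ =>
        (((m ^ b : ℕ) : ℝ), -(∑ i, s i * d i + (((m ^ b : ℕ) : ℝ) - 1) * c))) ∘
        (fun x i => dig (m ^ b) (x i)) := rfl
    rw [this]
    exact (countable_range _).mono (range_comp_subset_range _ _)
  · intro b x hirr
    exact absurd hirr (Nat.not_irrational _)
  · intro b x
    rw [hiter]
    exact lin_smul s c (m ^ b) x
  · by_cases hsi : ∃ i, Irrational (s i)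
    · obtain ⟨n, hn0, hn⟩ := exists_hyperplane hsi
      have hφm : Measurable fun x : Fin k → AddCircle (1 : ℝ) => ∑ i, n i • x i :=
        Finset.measurable_sum _ fun i _ =>
          (continuous_zsmul (n i)).measurable.comp (measurable_pi_apply i)
      set ν' := ν.map fun x : Fin k → AddCircle (1 : ℝ) => ∑ i, n i • x i with hν'
      have hfin : IsFiniteMeasure ν' := Measure.isFiniteMeasure_map ν _
      have hat' : ∀ y, ν' {y} = 0 := by
        intro y
        rw [hν', Measure.map_apply hφm (measurableSet_singleton y)]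
        exact hat hsi n hn0 y
      rw [ENNReal.tendsto_nhds_zero]
      intro ε hε
      obtain ⟨δ, hδ, hball⟩ := small_balls hat' hε.ne'
      set C : ℝ := ∑ i, |(n i : ℝ)| with hC
      have hC0 : 0 ≤ C := Finset.sum_nonneg fun i _ => abs_nonneg _
      have hlim : Tendsto (fun b : ℕ => C / ((m ^ b : ℕ) : ℝ)) atTop (𝓝 0) := by
        have h0 : (1 : ℝ) < m := by exact_mod_cast hm
        have h1 : Tendsto (fun b : ℕ => ((m ^ b : ℕ) : ℝ)) atTop atTop := by
          refine (tendsto_pow_atTop_atTop_of_one_lt h0).congr fun b => ?_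
          push_cast
          rfl
        exact h1.const_div_atTop C
      filter_upwards [hlim.eventually (gt_mem_nhds hδ)] with b hb
      by_cases hne : ∃ x₀, x₀ ∈ {x | ∃ p q : ℚ, Y b x = ((p : ℝ), (q : ℝ))}
      · obtain ⟨x₀, p₀, q₀, hx₀⟩ := hne
        set D : ℤ := ∑ i, n i * (dig (m ^ b) (x₀ i) : ℤ) with hD
        have hmb : (0 : ℝ) < ((m ^ b : ℕ) : ℝ) := by
          have : 0 < m ^ b := Nat.pow_pos (by omega)
          exact_mod_cast this
        have hsub : {x | ∃ p q : ℚ, Y b x = ((p : ℝ), (q : ℝ))} ⊆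
            (fun x : Fin k → AddCircle (1 : ℝ) => ∑ i, n i • x i) ⁻¹'
              (Metric.closedBall (((D : ℝ) / ((m ^ b : ℕ) : ℝ) : ℝ) : AddCircle (1 : ℝ)) δ) := by
          rintro x ⟨p, q, hx⟩
          have e1 : -(∑ i, s i * dig (m ^ b) (x i) + (((m ^ b : ℕ) : ℝ) - 1) * c) = q :=
            congrArg Prod.snd hx
          have e2 : -(∑ i, s i * dig (m ^ b) (x₀ i) + (((m ^ b : ℕ) : ℝ) - 1) * c) = q₀ :=
            congrArg Prod.snd hx₀
          have e3 : ∑ i, n i * ((dig (m ^ b) (x i) : ℤ) - (dig (m ^ b) (x₀ i) : ℤ)) = 0 := by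
            apply hn
            refine ⟨q₀ - q, ?_⟩
            push_cast
            rw [← e1, ← e2]
            have : ∑ i, s i * ((dig (m ^ b) (x i) : ℝ) - (dig (m ^ b) (x₀ i) : ℝ)) =
                ∑ i, s i * (dig (m ^ b) (x i) : ℝ) - ∑ i, s i * (dig (m ^ b) (x₀ i) : ℝ) := by
              rw [← Finset.sum_sub_distrib]
              exact Finset.sum_congr rfl fun i _ => by ring
            rw [this]
            ring
          have e4 : ∑ i, n i * (dig (m ^ b) (x i) : ℤ) = D := by
            rw [hD, ← sub_eq_zero, ← Finset.sum_sub_distrib, ← e3]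
            exact Finset.sum_congr rfl fun i _ => by ring
          have e5 : ∑ i, (n i : ℝ) * (dig (m ^ b) (x i) : ℝ) = D := by exact_mod_cast e4
          rw [mem_preimage, Metric.mem_closedBall, dist_eq_norm]
          have e6 : (∑ i, n i • x i) = ((∑ i, (n i : ℝ) * rep (x i) : ℝ) : AddCircle (1 : ℝ)) := by
            rw [coe_sum']
            refine Finset.sum_congr rfl fun i _ => ?_
            rw [← zsmul_eq_mul, AddCircle.coe_zsmul, coe_rep]
          rw [e6, ← AddCircle.coe_sub]
          refine (norm_coe_le _).trans ?_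
          have e7 : ∑ i, (n i : ℝ) * rep (x i) - (D : ℝ) / ((m ^ b : ℕ) : ℝ) =
              (∑ i, (n i : ℝ) * (((m ^ b : ℕ) : ℝ) * rep (x i) - dig (m ^ b) (x i))) /
                ((m ^ b : ℕ) : ℝ) := by
            rw [← e5, eq_div_iff hmb.ne', sub_mul, div_mul_cancel₀ _ hmb.ne', Finset.sum_mul,
              ← Finset.sum_sub_distrib]
            exact Finset.sum_congr rfl fun i _ => by ring
          rw [e7, abs_div, abs_of_pos hmb]
          refine le_trans ?_ hb.le
          apply div_le_div_of_nonneg_right _ hmb.le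
          refine (Finset.abs_sum_le_sum_abs _ _).trans ?_
          refine Finset.sum_le_sum fun i _ => ?_
          rw [abs_mul]
          have f1 : |((m ^ b : ℕ) : ℝ) * rep (x i) - dig (m ^ b) (x i)| ≤ 1 := by
            rw [← rep_smul, abs_of_nonneg (rep_nonneg _)]
            exact (rep_lt_one _).le
          calc |(n i : ℝ)| * |((m ^ b : ℕ) : ℝ) * rep (x i) - dig (m ^ b) (x i)|
              ≤ |(n i : ℝ)| * 1 := mul_le_mul_of_nonneg_left f1 (abs_nonneg _)
            _ = |(n i : ℝ)| := mul_one _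
        calc ν {x | ∃ p q : ℚ, Y b x = ((p : ℝ), (q : ℝ))}
            ≤ ν ((fun x : Fin k → AddCircle (1 : ℝ) => ∑ i, n i • x i) ⁻¹'
              (Metric.closedBall (((D : ℝ) / ((m ^ b : ℕ) : ℝ) : ℝ) : AddCircle (1 : ℝ)) δ)) :=
              measure_mono hsub
          _ = ν' (Metric.closedBall (((D : ℝ) / ((m ^ b : ℕ) : ℝ) : ℝ) : AddCircle (1 : ℝ)) δ) := by
              rw [hν', Measure.map_apply hφm Metric.isClosed_closedBall.measurableSet]
          _ ≤ ε := (hball _).le
      · have : {x | ∃ p q : ℚ, Y b x = ((p : ℝ), (q : ℝ))} = ∅ := by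
          ext x
          simp only [mem_empty_iff_false, iff_false]
          exact fun h => hne ⟨x, h⟩
        rw [this, measure_empty]
        exact zero_le
    · have hc : Irrational c := hsc.resolve_left hsi
      have hsq : ∀ i, ∃ q : ℚ, (q : ℝ) = s i := by
        intro i
        by_contra h
        apply hsi
        refine ⟨i, ?_⟩
        rintro ⟨q, hq⟩
        exact h ⟨q, hq⟩
      choose q hq using hsq
      refine tendsto_const_nhds.congr' ?_
      filter_upwards [eventually_ge_atTop 1] with b hb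
      have : {x | ∃ p q : ℚ, Y b x = ((p : ℝ), (q : ℝ))} = ∅ := by
        ext x
        simp only [mem_empty_iff_false, iff_false]
        rintro ⟨p, r, hx⟩
        have e1 : -(∑ i, s i * dig (m ^ b) (x i) + (((m ^ b : ℕ) : ℝ) - 1) * c) = r :=
          congrArg Prod.snd hx
        have hMb : 1 < m ^ b := Nat.one_lt_pow (by omega) hm
        have h1 : (((m ^ b : ℕ) : ℝ) - 1) ≠ 0 := by
          have : (1 : ℝ) < ((m ^ b : ℕ) : ℝ) := by exact_mod_cast hMb
          linarith
        apply hc
        refine ⟨(-r - ∑ i, q i * dig (m ^ b) (x i)) / (((m ^ b : ℕ) : ℚ) - 1), ?_⟩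
        have e2 : ((∑ i, q i * dig (m ^ b) (x i) : ℚ) : ℝ) = ∑ i, s i * dig (m ^ b) (x i) := by
          push_cast
          exact Finset.sum_congr rfl fun i _ => by rw [hq i]
        have e3 : (((-r - ∑ i, q i * dig (m ^ b) (x i)) / (((m ^ b : ℕ) : ℚ) - 1) : ℚ) : ℝ) =
            (-(r : ℝ) - ((∑ i, q i * dig (m ^ b) (x i) : ℚ) : ℝ)) / (((m ^ b : ℕ) : ℝ) - 1) := by
          push_cast
          ring
        rw [e3, e2, ← e1, div_eq_iff h1]
        ring
      rw [this, measure_empty]

end Pool.Agent.MP_e27144_an
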