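import Pool.Agent.MP_e27144_an.AffBeta

/-!
# Linear images of measures on tori and stationary processes
-/

open Set Filter Topology MeasureTheory
open scoped ENNReal NNReal

namespace Pool.Agent.MP_e27144_an

/-- A partial affine symmetry which is not rational is trivial. -/
lemma sym_null {σ τ : Measure (AddCircle (1 : ℝ))} [IsFiniteMeasure σ]
    (h2 : MeasurePreserving (fun x : AddCircle (1 : ℝ) => (2 : ℕ) • x) σ σ)
    (h3 : MeasurePreserving (fun x : AddCircle (1 : ℝ) => (3 : ℕ) • x) σ σ)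
    (hs : σ ⟂ₘ volume) {s c : ℝ} (hsc : Irrational s ∨ Irrational c)
    (hat : Irrational s → ∀ x, σ {x} = 0) (hτ : τ ≤ σ) (hτ' : τ.map (aff s c) ≤ σ) : τ = 0 := by
  have hsing := aff_singular h2 h3 hs (M := 2) (by norm_num) h2 h2 (s := s) (c := c) hsc hat
  have hdis := disjoint_iff.mp (Measure.mutuallySingular_iff_disjoint.mp hsing)
  have hle2 : τ.map (aff s c) ≤ σ.map (aff s c) := Measure.map_mono hτ (measurable_aff _ _)
  have hz : τ.map (aff s c) = 0 := by
    have := le_inf hτ' hle2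
    rw [hdis] at this
    exact le_antisymm this (Measure.zero_le _)
  have hz' : τ univ = 0 := by
    have : (τ.map (aff s c)) univ = 0 := by rw [hz]; simp
    rwa [Measure.map_apply (measurable_aff _ _) MeasurableSet.univ, preimage_univ] at this
  exact Measure.measure_univ_eq_zero.mp hz'

/-- The common part of a process and its return. -/
lemma return_null {σ : Measure (AddCircle (1 : ℝ))} [IsFiniteMeasure σ]
    (h2 : MeasurePreserving (fun x : AddCircle (1 : ℝ) => (2 : ℕ) • x) σ σ)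
    (h3 : MeasurePreserving (fun x : AddCircle (1 : ℝ) => (3 : ℕ) • x) σ σ)
    (hs : σ ⟂ₘ volume) {Ω : Type*} [MeasurableSpace Ω] {ν : Measure Ω}
    {S : Ω → Ω} (hS : MeasurePreserving S ν ν) {g : Ω → AddCircle (1 : ℝ)} (hg : Measurable g)
    {f : Ω → ℝ≥0∞} (hfm : Measurable f) (hf1 : ∀ x, f x ≤ 1)
    (hθσ : (ν.withDensity f).map g ≤ σ) {s c : ℝ} (hsc : Irrational s ∨ Irrational c)
    (hat : Irrational s → ∀ x, σ {x} = 0) :
    ν.withDensity (fun x => f x * f (S x)) {x | g (S x) = aff s c (g x)} = 0 := by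
  have hSm := hS.measurable
  set ζ := ν.withDensity (fun x => f x * f (S x)) with hζ
  set E : Set Ω := {x | g (S x) = aff s c (g x)} with hE
  have hEm : MeasurableSet E := measurableSet_eq_fun (hg.comp hSm) ((measurable_aff _ _).comp hg)
  set τ := ζ.restrict E with hτ
  have hτθ : τ ≤ ν.withDensity f := by
    refine Measure.restrict_le_self.trans ?_
    exact withDensity_mono (Eventually.of_forall fun x => mul_le_of_le_one_right zero_le (hf1 _))
  have hτσ : τ.map g ≤ σ := (Measure.map_mono hτθ hg).trans hθσ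
  have hτS : (τ.map S).map g ≤ σ := by
    refine le_trans (Measure.map_mono ?_ hg) hθσ
    refine Measure.le_iff.mpr fun A hA => ?_
    rw [Measure.map_apply hSm hA]
    calc τ (S ⁻¹' A) ≤ ζ (S ⁻¹' A) := Measure.restrict_le_self _
      _ = ∫⁻ x in S ⁻¹' A, f x * f (S x) ∂ν := withDensity_apply _ (hSm hA)
      _ ≤ ∫⁻ x in S ⁻¹' A, f (S x) ∂ν :=
          lintegral_mono fun x => mul_le_of_le_one_left zero_le (hf1 _)
      _ = ∫⁻ x in A, f x ∂ν := hS.setLIntegral_comp_preimage hA hfm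
      _ = (ν.withDensity f) A := (withDensity_apply _ hA).symm
  have hτa : (τ.map S).map g = (τ.map g).map (aff s c) := by
    rw [Measure.map_map hg hSm, Measure.map_map (measurable_aff _ _) hg]
    apply Measure.map_congr
    exact ae_restrict_mem hEm
  have hz := sym_null h2 h3 hs hsc hat hτσ (hτa ▸ hτS)
  have hz' : τ univ = 0 := by
    have : (τ.map g) univ = 0 := by rw [hz]; simp
    rwa [Measure.map_apply hg MeasurableSet.univ, preimage_univ] at this
  rw [hτ, Measure.restrict_apply_univ] at hz'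
  exact hz'

/-- The density of the common part of `σ` and the law of `g`. -/
lemma exists_common {σ : Measure (AddCircle (1 : ℝ))}
    {Ω : Type*} [MeasurableSpace Ω] {ν : Measure Ω} [IsFiniteMeasure ν]
    {g : Ω → AddCircle (1 : ℝ)} (hg : Measurable g) (hcon : ¬ σ ⟂ₘ ν.map g) [IsFiniteMeasure σ] :
    ∃ f : Ω → ℝ≥0∞, Measurable f ∧ (∀ x, f x ≤ 1) ∧ (∫⁻ x, f x ∂ν ≠ 0) ∧
      (ν.withDensity f).map g ≤ σ := by
  have hcon' : ¬ Disjoint σ (ν.map g) := fun h =>
    hcon (Measure.mutuallySingular_iff_disjoint.mpr h)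
  rw [disjoint_iff] at hcon'
  have hν'fin : IsFiniteMeasure (ν.map g) := Measure.isFiniteMeasure_map ν g
  obtain ⟨w, hwm, hw1, hw⟩ := exists_density (inf_le_right : σ ⊓ ν.map g ≤ ν.map g)
  set f : Ω → ℝ≥0∞ := fun x => w (g x) with hf
  have hfm : Measurable f := hwm.comp hg
  have hθg : (ν.withDensity f).map g = σ ⊓ ν.map g := by
    rw [← hw]
    ext A hA
    rw [Measure.map_apply hg hA, withDensity_apply _ (hg hA), withDensity_apply _ hA,
      setLIntegral_map hA hwm hg]
  refine ⟨f, hfm, fun x => hw1 _, ?_, by rw [hθg]; exact inf_le_left⟩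
  intro h0
  apply hcon'
  apply Measure.measure_univ_eq_zero.mp
  rw [← hθg, Measure.map_apply hg MeasurableSet.univ, preimage_univ,
    withDensity_apply _ MeasurableSet.univ, Measure.restrict_univ]
  exact h0

/-- Processes whose values at times `0` and `b` are related by countably many affine maps which
are typically not rational: the case of an atomless measure `σ`. -/
theorem process_singular' {σ : Measure (AddCircle (1 : ℝ))} [IsFiniteMeasure σ]
    (h2 : MeasurePreserving (fun x : AddCircle (1 : ℝ) => (2 : ℕ) • x) σ σ)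
    (h3 : MeasurePreserving (fun x : AddCircle (1 : ℝ) => (3 : ℕ) • x) σ σ)
    (hs : σ ⟂ₘ volume)
    {Ω : Type*} [MeasurableSpace Ω] {ν : Measure Ω} [IsFiniteMeasure ν]
    {S : Ω → Ω} (hSν : MeasurePreserving S ν ν) {g : Ω → AddCircle (1 : ℝ)} (hg : Measurable g)
    {Y : ℕ → Ω → ℝ × ℝ} (hY : ∀ b, (range (Y b)).Countable)
    (hat : ∀ b x, Irrational (Y b x).1 → ∀ x, σ {x} = 0)
    (hS : ∀ b x, g (S^[b] x) = aff (Y b x).1 (Y b x).2 (g x))
    (hR : Tendsto (fun b : ℕ => ν {x | ∃ p q : ℚ, Y b x = ((p : ℝ), (q : ℝ))}) atTop (𝓝 0)) :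
    σ ⟂ₘ ν.map g := by
  by_contra hcon
  obtain ⟨f, hfm, hf1, hf0, hθσ⟩ := exists_common hg hcon
  obtain ⟨r, hr0, hr⟩ := exists_return' hSν hfm hf1 hf0
  have hev : ∀ᶠ b in atTop, ν {x | ∃ p q : ℚ, Y b x = ((p : ℝ), (q : ℝ))} < r :=
    hR.eventually (gt_mem_nhds (pos_iff_ne_zero.mpr hr0))
  obtain ⟨b₀, hb₀⟩ := eventually_atTop.mp hev
  obtain ⟨b, hb, hrb⟩ := hr b₀
  have hlt := hb₀ b hb
  have hSb := (hSν.iterate b)
  set ζ := ν.withDensity (fun x => f x * f (S^[b] x)) with hζ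
  have hζν : ζ ≤ ν := by
    calc ζ ≤ ν.withDensity (fun _ => 1) :=
          withDensity_mono (Eventually.of_forall fun x => mul_le_one' (hf1 _) (hf1 _))
      _ = ν := withDensity_one
  set E : ℝ × ℝ → Set Ω := fun p => {x | g (S^[b] x) = aff p.1 p.2 (g x)} with hE
  set I : Set (ℝ × ℝ) := {y ∈ range (Y b) | Irrational y.1 ∨ Irrational y.2} with hI
  have hnull : ∀ y ∈ I, ζ (E y) = 0 := by
    rintro y ⟨⟨x, hx⟩, hyI⟩
    refine return_null h2 h3 hs hSb hg hfm hf1 hθσ hyI ?_
    intro hirr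
    exact hat b x (by rw [hx]; exact hirr)
  have hcov : (univ : Set Ω) ⊆ {x | ∃ p q : ℚ, Y b x = ((p : ℝ), (q : ℝ))} ∪ ⋃ y ∈ I, E y := by
    intro x _
    by_cases hirr : Irrational (Y b x).1 ∨ Irrational (Y b x).2
    · exact Or.inr (mem_biUnion (show Y b x ∈ I from ⟨mem_range_self x, hirr⟩) (hS b x))
    · left
      push Not at hirr
      obtain ⟨h1, h2⟩ := hirr
      unfold Irrational at h1 h2
      push Not at h1 h2
      obtain ⟨p, hp⟩ := h1
      obtain ⟨q, hq⟩ := h2
      exact ⟨p, q, by rw [hp, hq]⟩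
  have hzero : ζ (⋃ y ∈ I, E y) = 0 :=
    (measure_biUnion_null_iff ((hY b).mono (fun y hy => hy.1))).mpr hnull
  have hfinal : r ≤ ν {x | ∃ p q : ℚ, Y b x = ((p : ℝ), (q : ℝ))} := by
    calc r ≤ ∫⁻ x, f x * f (S^[b] x) ∂ν := hrb
      _ = ζ univ := by
          rw [hζ, withDensity_apply _ MeasurableSet.univ, Measure.restrict_univ]
      _ ≤ ζ ({x | ∃ p q : ℚ, Y b x = ((p : ℝ), (q : ℝ))} ∪ ⋃ y ∈ I, E y) := measure_mono hcov
      _ ≤ ζ {x | ∃ p q : ℚ, Y b x = ((p : ℝ), (q : ℝ))} + ζ (⋃ y ∈ I, E y) :=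
          measure_union_le _ _
      _ = ζ {x | ∃ p q : ℚ, Y b x = ((p : ℝ), (q : ℝ))} := by rw [hzero, add_zero]
      _ ≤ ν {x | ∃ p q : ℚ, Y b x = ((p : ℝ), (q : ℝ))} := hζν _
  exact absurd hfinal (not_le.mpr hlt)

/-- The linear image of a point of a torus. -/
noncomputable def lin {k : ℕ} (s : Fin k → ℝ) (c : ℝ) (x : Fin k → AddCircle (1 : ℝ)) :
    AddCircle (1 : ℝ) :=
  ((∑ i, s i * rep (x i) + c : ℝ) : AddCircle (1 : ℝ))

lemma measurable_lin {k : ℕ} (s : Fin k → ℝ) (c : ℝ) : Measurable (lin s c) := by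
  refine (AddCircle.measurable_mk' (a := (1 : ℝ))).comp (Measurable.add_const ?_ c)
  exact Finset.measurable_sum _ fun i _ =>
    (measurable_rep.comp (measurable_pi_apply i)).const_mul (s i)

lemma lin_smul {k : ℕ} (s : Fin k → ℝ) (c : ℝ) (n : ℕ) (x : Fin k → AddCircle (1 : ℝ)) :
    lin s c (n • x) = aff n (-(∑ i, s i * dig n (x i) + (n - 1) * c)) (lin s c x) := by
  have h1 : ∃ m : ℤ, rep (lin s c x) = ∑ i, s i * rep (x i) + c - m := by
    have h2 : ((∑ i, s i * rep (x i) + c - rep (lin s c x) : ℝ) : AddCircle (1 : ℝ)) = 0 := by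
      rw [AddCircle.coe_sub, coe_rep]
      exact sub_self _
    rw [AddCircle.coe_eq_zero_iff] at h2
    obtain ⟨m, hm⟩ := h2
    refine ⟨m, ?_⟩
    rw [zsmul_eq_mul, mul_one] at hm
    linarith
  obtain ⟨m, hm⟩ := h1
  unfold aff
  rw [hm]
  unfold lin
  have h3 : (n : ℝ) * (∑ i, s i * rep (x i) + c - m) +
      -(∑ i, s i * dig n (x i) + (n - 1) * c) =
      (∑ i, s i * rep ((n • x) i) + c) - ((n * m : ℤ) : ℝ) := by
    have h4 : ∑ i, s i * rep ((n • x) i) = n * ∑ i, s i * rep (x i) - ∑ i, s i * dig n (x i) := by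
      rw [Finset.mul_sum, ← Finset.sum_sub_distrib]
      refine Finset.sum_congr rfl fun i _ => ?_
      rw [Pi.smul_apply, rep_smul]
      ring
    rw [h4]
    push_cast
    ring
  rw [h3, AddCircle.coe_sub]
  have h5 : (((n * m : ℤ) : ℝ) : AddCircle (1 : ℝ)) = 0 := by
    rw [AddCircle.coe_eq_zero_iff]
    exact ⟨n * m, by simp⟩
  rw [h5, sub_zero]

/-- If not all coefficients are rational, the integer vectors with a given rational class of values
lie in a proper hyperplane. -/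
lemma exists_hyperplane {k : ℕ} {s : Fin k → ℝ} (hs : ∃ i, Irrational (s i)) :
    ∃ n : Fin k → ℤ, n ≠ 0 ∧ ∀ d : Fin k → ℤ, (∃ q : ℚ, (q : ℝ) = ∑ i, s i * d i) →
      ∑ i, n i * d i = 0 := by
  classical
  set V : Submodule ℚ (Fin k → ℚ) :=
    { carrier := {d | ∃ q : ℚ, (q : ℝ) = ∑ i, s i * d i}
      add_mem' := by
        rintro a b ⟨q, hq⟩ ⟨q', hq'⟩
        refine ⟨q + q', ?_⟩
        push_cast
        rw [hq, hq', ← Finset.sum_add_distrib]
        refine Finset.sum_congr rfl fun i _ => ?_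
        simp only [Pi.add_apply]
        push_cast
        ring
      zero_mem' := ⟨0, by simp⟩
      smul_mem' := by
        rintro c a ⟨q, hq⟩
        refine ⟨c * q, ?_⟩
        push_cast
        rw [hq, Finset.mul_sum]
        refine Finset.sum_congr rfl fun i _ => ?_
        simp only [Pi.smul_apply, smul_eq_mul]
        push_cast
        ring } with hV
  have hVt : V < ⊤ := by
    rw [lt_top_iff_ne_top]
    intro h
    obtain ⟨i, hi⟩ := hs
    have h1 : (Pi.single i (1 : ℚ) : Fin k → ℚ) ∈ V := by rw [h]; trivial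
    obtain ⟨q, hq⟩ := h1
    apply hi
    refine ⟨q, ?_⟩
    rw [hq, Finset.sum_eq_single i]
    · simp
    · intro j _ hj
      simp [Pi.single_eq_of_ne hj]
    · intro h; exact absurd (Finset.mem_univ i) h
  obtain ⟨φ, hφ0, hφ⟩ := Submodule.exists_le_ker_of_lt_top V hVt
  obtain ⟨b, hb⟩ := IsLocalization.exist_integer_multiples_of_finite (nonZeroDivisors ℤ)
    (fun i : Fin k => φ (Pi.single i 1))
  choose n hn using hb
  have hb0 : ((b : ℤ) : ℚ) ≠ 0 := by
    have := nonZeroDivisors.ne_zero b.2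
    exact_mod_cast this
  have hn' : ∀ i, (n i : ℚ) = (b : ℤ) * φ (Pi.single i 1) := by
    intro i
    have := hn i
    simp only [algebraMap_int_eq, eq_intCast, zsmul_eq_mul] at this
    exact this
  have hexp : ∀ d : Fin k → ℚ, ∑ i, (n i : ℚ) * d i = (b : ℤ) * φ d := by
    intro d
    have h1 : d = ∑ i, d i • (Pi.single i (1 : ℚ) : Fin k → ℚ) := by
      rw [pi_eq_sum_univ' d]
      simp [Finset.sum_apply, Pi.single_apply]
    conv_rhs => rw [h1, map_sum]
    rw [Finset.mul_sum]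
    refine Finset.sum_congr rfl fun i _ => ?_
    rw [map_smul, smul_eq_mul, hn' i]
    ring
  refine ⟨n, ?_, ?_⟩
  · intro h
    apply hφ0
    ext i
    simp only [LinearMap.coe_comp, Function.comp_apply, LinearMap.coe_single, LinearMap.zero_comp,
      LinearMap.zero_apply]
    have h1 := hn' i
    rw [h] at h1
    simp only [Pi.zero_apply, Int.cast_zero] at h1
    rcases mul_eq_zero.mp h1.symm with h2 | h2
    · exact absurd h2 hb0
    · exact h2
  · rintro d ⟨q, hq⟩
    have h1 : (fun i => (d i : ℚ)) ∈ V := ⟨q, by rw [hq]; push_cast; rfl⟩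
    have h2 : φ (fun i => (d i : ℚ)) = 0 := hφ h1
    have h3 := hexp (fun i => (d i : ℚ))
    rw [h2, mul_zero] at h3
    exact_mod_cast h3

end Pool.Agent.MP_e27144_an
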