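import Pool.Agent.MP_e27144_an.AffRig

/-!
# Affine images of measures invariant under one multiplication: returns
-/

open Set Filter Topology MeasureTheory
open scoped ENNReal NNReal

namespace Pool.Agent.MP_e27144_an

lemma measurableSet_cell (n k : ℕ) : MeasurableSet {x | dig n x = k} :=
  measurable_dig n (measurableSet_singleton k)

/-- The cells of the digits of order `n` are small if `n` is large. -/
lemma cell_small {ν : Measure (AddCircle (1 : ℝ))} [IsFiniteMeasure ν] (hat : ∀ x, ν {x} = 0)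
    {ε : ℝ≥0∞} (hε : ε ≠ 0) : ∃ N : ℕ, ∀ n k : ℕ, N ≤ n → ν {x | dig n x = k} < ε := by
  obtain ⟨δ, hδ, hb⟩ := small_balls hat hε
  obtain ⟨N, hN⟩ := exists_nat_gt (1 / δ)
  refine ⟨N + 1, fun n k hn => lt_of_le_of_lt (measure_mono ?_)
    (hb ((k / n : ℝ) : AddCircle (1 : ℝ)))⟩
  intro x hx
  have hn0 : (0 : ℝ) < n := by
    have : 0 < n := by omega
    exact_mod_cast this
  have h0 : 0 ≤ (n : ℝ) * rep x := mul_nonneg hn0.le (rep_nonneg x)
  have h1 : (dig n x : ℝ) ≤ n * rep x := Nat.floor_le h0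
  have h2 : (n : ℝ) * rep x < dig n x + 1 := Nat.lt_floor_add_one _
  rw [mem_ofPred_eq] at hx
  rw [hx] at h1 h2
  rw [Metric.mem_closedBall, dist_eq_norm]
  have h3 : x - ((k / n : ℝ) : AddCircle (1 : ℝ)) = ((rep x - k / n : ℝ) : AddCircle (1 : ℝ)) := by
    rw [AddCircle.coe_sub, coe_rep]
  rw [h3]
  refine (norm_coe_le _).trans ?_
  have h4 : (N : ℝ) < n := by exact_mod_cast (by omega : N < n)
  have h5 : 1 / (n : ℝ) ≤ δ := by
    rw [div_le_iff₀ hn0]
    rw [div_lt_iff₀ hδ] at hN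
    nlinarith
  refine le_trans ?_ h5
  rw [abs_le]
  constructor
  · have : (k : ℝ) / n ≤ rep x := by
      rw [div_le_iff₀ hn0]
      linarith
    have h6 : 0 ≤ 1 / (n : ℝ) := by positivity
    linarith
  · have : rep x ≤ (k + 1) / n := by
      rw [le_div_iff₀ hn0]
      linarith
    rw [add_div] at this
    linarith

/-- Returns of positive measure. -/
lemma exists_return {ν : Measure (AddCircle (1 : ℝ))} [IsFiniteMeasure ν] {M : ℕ}
    (hMν : MeasurePreserving (fun x : AddCircle (1 : ℝ) => M • x) ν ν)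
    {f : AddCircle (1 : ℝ) → ℝ≥0∞} (hfm : Measurable f) (hf1 : ∀ x, f x ≤ 1)
    (hf0 : ∫⁻ x, f x ∂ν ≠ 0) :
    ∃ r : ℝ≥0∞, r ≠ 0 ∧ ∀ a : ℕ, ∃ b, a ≤ b ∧ r ≤ ∫⁻ x, f x * f ((M ^ b : ℕ) • x) ∂ν := by
  have hftop : ∀ x, f x ≠ ∞ := fun x => ne_top_of_le_ne_top ENNReal.one_ne_top (hf1 x)
  have hfin : ∀ {g : AddCircle (1 : ℝ) → ℝ≥0∞}, (∀ x, g x ≤ 1) → ∫⁻ x, g x ∂ν ≠ ∞ := by
    intro g hg
    refine ne_top_of_le_ne_top (measure_ne_top ν univ) ?_
    calc ∫⁻ x, g x ∂ν ≤ ∫⁻ _x, 1 ∂ν := lintegral_mono fun x => hg x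
      _ = ν univ := by simp
  have hρ : 0 < (∫⁻ x, f x ∂ν).toReal := ENNReal.toReal_pos hf0 (hfin hf1)
  obtain ⟨r, hr, hr'⟩ := exists_integral_mul_ge ν hρ
  refine ⟨ENNReal.ofReal r, by simpa using hr, fun a => ?_⟩
  have hF : ∀ n : ℕ, Measurable fun x : AddCircle (1 : ℝ) => f ((M ^ ((a + 1) * n) : ℕ) • x) :=
    fun n => hfm.comp (measurable_smul_nat _)
  obtain ⟨i, j, -, hij, hrij⟩ := hr' (fun n x => (f ((M ^ ((a + 1) * n) : ℕ) • x)).toReal)
    (fun n => (hF n).ennreal_toReal) (fun n x => ENNReal.toReal_nonneg)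
    (fun n x => by
      have := ENNReal.toReal_mono ENNReal.one_ne_top (hf1 ((M ^ ((a + 1) * n) : ℕ) • x))
      simpa using this)
    (fun n => by
      have h1 : ∫ x, (f ((M ^ ((a + 1) * n) : ℕ) • x)).toReal ∂ν = (∫⁻ x, f x ∂ν).toReal := by
        rw [integral_toReal (hF n).aemeasurable
          (Eventually.of_forall fun x => (hftop _).lt_top),
          (mp_pow_one hMν ((a + 1) * n)).lintegral_comp hfm]
      rw [h1]) 0
  refine ⟨(a + 1) * (j - i), ?_, ?_⟩
  · have : 1 ≤ j - i := by omega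
    nlinarith
  have h1 : ∫ x, (f ((M ^ ((a + 1) * i) : ℕ) • x)).toReal * (f ((M ^ ((a + 1) * j) : ℕ) • x)).toReal ∂ν
      = (∫⁻ x, f x * f ((M ^ ((a + 1) * (j - i)) : ℕ) • x) ∂ν).toReal := by
    simp_rw [← ENNReal.toReal_mul]
    have hprod : Measurable fun x : AddCircle (1 : ℝ) =>
        f ((M ^ ((a + 1) * i) : ℕ) • x) * f ((M ^ ((a + 1) * j) : ℕ) • x) := (hF i).mul (hF j)
    rw [integral_toReal hprod.aemeasurable
      (Eventually.of_forall fun x => (ENNReal.mul_ne_top (hftop _) (hftop _)).lt_top)]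
    congr 1
    have h2 : ∀ x : AddCircle (1 : ℝ), (M ^ ((a + 1) * j) : ℕ) • x =
        (M ^ ((a + 1) * (j - i)) : ℕ) • ((M ^ ((a + 1) * i) : ℕ) • x) := by
      intro x
      rw [smul_smul, ← pow_add, ← mul_add]
      congr 3
      omega
    simp_rw [h2]
    have hprod2 : Measurable fun x : AddCircle (1 : ℝ) =>
        f x * f ((M ^ ((a + 1) * (j - i)) : ℕ) • x) := hfm.mul (hfm.comp (measurable_smul_nat _))
    exact (mp_pow_one hMν ((a + 1) * i)).lintegral_comp hprod2
  rw [h1] at hrij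
  refine (ENNReal.ofReal_le_iff_le_toReal (hfin fun x => mul_le_one' (hf1 _) (hf1 _))).mpr hrij

/-- On a return of positive measure the translation is rational. -/
lemma return_rational {σ ν : Measure (AddCircle (1 : ℝ))} [IsFiniteMeasure σ]
    (h2 : MeasurePreserving (fun x : AddCircle (1 : ℝ) => (2 : ℕ) • x) σ σ)
    (h3 : MeasurePreserving (fun x : AddCircle (1 : ℝ) => (3 : ℕ) • x) σ σ)
    (hs : σ ⟂ₘ volume) {n : ℕ}
    (hMσ : MeasurePreserving (fun x : AddCircle (1 : ℝ) => n • x) σ σ)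
    (hMν : MeasurePreserving (fun x : AddCircle (1 : ℝ) => n • x) ν ν) {s c : ℝ}
    {f : AddCircle (1 : ℝ) → ℝ≥0∞} (hfm : Measurable f) (hf1 : ∀ x, f x ≤ 1)
    (hθσ : (ν.withDensity f).map (aff s c) ≤ σ) {k : ℕ}
    (hpos : ν.withDensity (fun x => f x * f (n • x)) {x | dig n x = k} ≠ 0) :
    ∃ q : ℚ, (q : ℝ) = s * k + (n - 1) * c := by
  have hgm := measurable_aff s c
  have hnm := measurable_smul_nat n
  have hK := measurableSet_cell n k
  set K : Set (AddCircle (1 : ℝ)) := {x | dig n x = k} with hKdef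
  set θ := ν.withDensity f with hθ
  set ζ := (ν.withDensity (fun x => f x * f (n • x))).restrict K with hζ
  have hζθ : ζ ≤ θ := by
    refine Measure.restrict_le_self.trans ?_
    exact withDensity_mono (Eventually.of_forall fun x => mul_le_of_le_one_right zero_le (hf1 _))
  have hζn : ζ.map (fun x => n • x) ≤ θ := by
    refine Measure.le_iff.mpr fun A hA => ?_
    rw [Measure.map_apply hnm hA]
    calc ζ ((fun x => n • x) ⁻¹' A)
        ≤ (ν.withDensity (fun x => f x * f (n • x))) ((fun x => n • x) ⁻¹' A) :=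
          Measure.restrict_le_self _
      _ = ∫⁻ x in (fun x => n • x) ⁻¹' A, f x * f (n • x) ∂ν := withDensity_apply _ (hnm hA)
      _ ≤ ∫⁻ x in (fun x => n • x) ⁻¹' A, f (n • x) ∂ν :=
          lintegral_mono fun x => mul_le_of_le_one_left zero_le (hf1 _)
      _ = ∫⁻ x in A, f x ∂ν := hMν.setLIntegral_comp_preimage hA hfm
      _ = θ A := (withDensity_apply _ hA).symm
  set τ := (ζ.map (fun x => n • x)).map (aff s c) with hτ
  have h5 : τ ≤ σ := (Measure.map_mono hζn hgm).trans hθσ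
  set t : AddCircle (1 : ℝ) := ((s * k + (n - 1) * c : ℝ) : AddCircle (1 : ℝ)) with ht
  have h6 : τ.map (fun x => x + t) ≤ σ := by
    have e1 : τ.map (fun x => x + t) = (ζ.map (aff s c)).map (fun x => n • x) := by
      rw [hτ, Measure.map_map hgm hnm, Measure.map_map (measurable_add_const t) (hgm.comp hnm),
        Measure.map_map hnm hgm]
      apply Measure.map_congr
      have : ∀ᵐ x ∂ζ, x ∈ K := ae_restrict_mem hK
      filter_upwards [this] with x hx
      simp only [Function.comp_apply]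
      rw [smul_aff s c n x, ht]
      rw [hKdef, mem_ofPred_eq] at hx
      rw [hx]
    rw [e1]
    calc (ζ.map (aff s c)).map (fun x => n • x) ≤ (θ.map (aff s c)).map (fun x => n • x) :=
          Measure.map_mono (Measure.map_mono hζθ hgm) hnm
      _ ≤ σ.map (fun x => n • x) := Measure.map_mono hθσ hnm
      _ = σ := hMσ.map_eq
  have h7 : τ ≠ 0 := by
    intro h0
    apply hpos
    have h8 : τ univ = 0 := by rw [h0]; simp
    rw [hτ, Measure.map_apply hgm MeasurableSet.univ, preimage_univ,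
      Measure.map_apply hnm MeasurableSet.univ, preimage_univ, hζ, Measure.restrict_apply_univ] at h8
    exact h8
  exact rational_of_addOrderOf (torsion_of_le h2 h3 hs h5 h6 h7)

/-- **Affine rigidity.** -/
theorem aff_singular {σ ν : Measure (AddCircle (1 : ℝ))} [IsFiniteMeasure σ] [IsFiniteMeasure ν]
    (h2 : MeasurePreserving (fun x : AddCircle (1 : ℝ) => (2 : ℕ) • x) σ σ)
    (h3 : MeasurePreserving (fun x : AddCircle (1 : ℝ) => (3 : ℕ) • x) σ σ)
    (hs : σ ⟂ₘ volume) {M : ℕ} (hM : 1 < M)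
    (hMσ : MeasurePreserving (fun x : AddCircle (1 : ℝ) => M • x) σ σ)
    (hMν : MeasurePreserving (fun x : AddCircle (1 : ℝ) => M • x) ν ν)
    {s c : ℝ} (hsc : Irrational s ∨ Irrational c) (hat : Irrational s → ∀ x, ν {x} = 0) :
    σ ⟂ₘ ν.map (aff s c) := by
  by_contra hcon
  have hcon' : ¬ Disjoint σ (ν.map (aff s c)) := fun h =>
    hcon (Measure.mutuallySingular_iff_disjoint.mpr h)
  rw [disjoint_iff] at hcon'
  have hgm := measurable_aff s c
  set ν' := ν.map (aff s c) with hν'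
  have hν'fin : IsFiniteMeasure ν' := Measure.isFiniteMeasure_map ν (aff s c)
  set η := σ ⊓ ν' with hη
  have hηfin : IsFiniteMeasure η := isFiniteMeasure_of_le σ inf_le_left
  set w : AddCircle (1 : ℝ) → ℝ≥0∞ := fun y => min (η.rnDeriv ν' y) 1 with hw
  have hwm : Measurable w := (Measure.measurable_rnDeriv _ _).min measurable_const
  have hw1 : ∀ y, w y ≤ 1 := fun y => min_le_right _ _
  have hηw : ν'.withDensity w = η := by
    have hle : η ≤ ν' := inf_le_right
    have hae : w =ᵐ[ν'] η.rnDeriv ν' := by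
      filter_upwards [Measure.rnDeriv_le_one_of_le hle] with x hx
      exact min_eq_left hx
    have hdec : η.HaveLebesgueDecomposition ν' :=
      Measure.haveLebesgueDecomposition_of_sigmaFinite η ν'
    rw [withDensity_congr_ae hae, Measure.withDensity_rnDeriv_eq _ _
      (Measure.absolutelyContinuous_of_le hle)]
  set f : AddCircle (1 : ℝ) → ℝ≥0∞ := fun x => w (aff s c x) with hf
  have hfm : Measurable f := hwm.comp hgm
  have hf1 : ∀ x, f x ≤ 1 := fun x => hw1 _
  have hθg : (ν.withDensity f).map (aff s c) = η := by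
    rw [← hηw]
    ext A hA
    rw [Measure.map_apply hgm hA, withDensity_apply _ (hgm hA), withDensity_apply _ hA, hν',
      setLIntegral_map hA hwm hgm]
  have hθσ : (ν.withDensity f).map (aff s c) ≤ σ := by rw [hθg]; exact inf_le_left
  have hf0 : ∫⁻ x, f x ∂ν ≠ 0 := by
    intro h0
    apply hcon'
    apply Measure.measure_univ_eq_zero.mp
    rw [← hθg, Measure.map_apply hgm MeasurableSet.univ, preimage_univ,
      withDensity_apply _ MeasurableSet.univ, Measure.restrict_univ]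
    exact h0
  obtain ⟨r, hr0, hr⟩ := exists_return hMν hfm hf1 hf0
  -- existence of a digit
  have hex : ∀ b : ℕ, r ≤ ∫⁻ x, f x * f ((M ^ b : ℕ) • x) ∂ν →
      ∃ k, ν.withDensity (fun x => f x * f ((M ^ b : ℕ) • x)) {x | dig (M ^ b) x = k} ≠ 0 := by
    intro b hb
    by_contra hno
    push Not at hno
    have h1 : (⋃ k : ℕ, {x : AddCircle (1 : ℝ) | dig (M ^ b) x = k}) = univ := by
      ext x; simp
    have h4 : ν.withDensity (fun x => f x * f ((M ^ b : ℕ) • x)) univ = 0 := by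
      rw [← h1]
      exact measure_iUnion_null hno
    rw [withDensity_apply _ MeasurableSet.univ, Measure.restrict_univ] at h4
    rw [h4] at hb
    exact hr0 (le_antisymm hb zero_le)
  by_cases hsi : Irrational s
  · obtain ⟨N, hN⟩ := cell_small (hat hsi) hr0
    obtain ⟨b, hNb, hrb⟩ := hr N
    obtain ⟨k, hk⟩ := hex b hrb
    have hmσ := mp_pow_one hMσ b
    have hmν := mp_pow_one hMν b
    obtain ⟨q, hq⟩ := return_rational h2 h3 hs hmσ hmν hfm hf1 hθσ hk
    set ζ := ν.withDensity (fun x => f x * f ((M ^ b : ℕ) • x)) with hζ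
    have hzero : ζ {x | dig (M ^ b) x = k}ᶜ = 0 := by
      have hsub : {x : AddCircle (1 : ℝ) | dig (M ^ b) x = k}ᶜ ⊆
          ⋃ l : {l : ℕ // l ≠ k}, {x : AddCircle (1 : ℝ) | dig (M ^ b) x = (l : ℕ)} := by
        intro x hx
        exact mem_iUnion.mpr ⟨⟨dig (M ^ b) x, hx⟩, rfl⟩
      refine measure_mono_null hsub (measure_iUnion_null fun l => ?_)
      by_contra hl
      obtain ⟨q', hq'⟩ := return_rational h2 h3 hs hmσ hmν hfm hf1 hθσ hl
      have h5 : s * ((k : ℝ) - (l : ℕ)) = ((q - q' : ℚ) : ℝ) := by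
        push_cast
        rw [hq, hq']
        ring
      have h6 : ((k : ℝ) - (l : ℕ)) ≠ 0 := by
        intro h
        apply l.2
        have : ((l : ℕ) : ℝ) = k := by linarith
        exact_mod_cast this
      have h7 : ((k : ℤ) - ((l : ℕ) : ℤ)) ≠ 0 := by
        intro h
        apply h6
        exact_mod_cast h
      have h8 := hsi.mul_intCast h7
      apply h8
      refine ⟨q - q', ?_⟩
      rw [← h5]
      push_cast
      rfl
    have h9 : r ≤ ζ {x | dig (M ^ b) x = k} := by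
      calc r ≤ ζ univ := by
            rw [hζ, withDensity_apply _ MeasurableSet.univ, Measure.restrict_univ]
            exact hrb
        _ = ζ {x | dig (M ^ b) x = k} + ζ {x | dig (M ^ b) x = k}ᶜ :=
            (measure_add_measure_compl (measurableSet_cell _ _)).symm
        _ = ζ {x | dig (M ^ b) x = k} := by rw [hzero, add_zero]
    have h10 : ζ {x | dig (M ^ b) x = k} ≤ ν {x | dig (M ^ b) x = k} := by
      rw [hζ, withDensity_apply _ (measurableSet_cell _ _)]
      calc ∫⁻ x in {x | dig (M ^ b) x = k}, f x * f ((M ^ b : ℕ) • x) ∂ν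
          ≤ ∫⁻ _x in {x | dig (M ^ b) x = k}, 1 ∂ν :=
            lintegral_mono fun x => mul_le_one' (hf1 _) (hf1 _)
        _ = ν {x | dig (M ^ b) x = k} := by simp
    have h11 : N ≤ M ^ b := hNb.trans (Nat.lt_pow_self hM).le
    exact absurd (h9.trans h10) (not_le.mpr (hN (M ^ b) k h11))
  · have hc : Irrational c := hsc.resolve_left hsi
    obtain ⟨b, hb1, hrb⟩ := hr 1
    obtain ⟨k, hk⟩ := hex b hrb
    obtain ⟨q, hq⟩ := return_rational h2 h3 hs (mp_pow_one hMσ b) (mp_pow_one hMν b) hfm hf1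
      hθσ hk
    have hsq : ∃ q : ℚ, (q : ℝ) = s := by
      by_contra h
      apply hsi
      rintro ⟨q, hq⟩
      exact h ⟨q, hq⟩
    obtain ⟨q', hq'⟩ := hsq
    have hMb : 1 < M ^ b := Nat.one_lt_pow (by omega) hM
    have h1 : (((M ^ b : ℕ) : ℝ) - 1) ≠ 0 := by
      have : (1 : ℝ) < ((M ^ b : ℕ) : ℝ) := by exact_mod_cast hMb
      linarith
    apply hc
    refine ⟨(q - q' * k) / (((M ^ b : ℕ) : ℚ) - 1), ?_⟩
    push_cast
    rw [hq, hq']
    push_cast at h1 ⊢
    field_simp
    ring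

end Pool.Agent.MP_e27144_an
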