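import Pool.Agent.MP_e27144_an.LeadMain

/-!
# Affine images of measures invariant under one multiplication
-/

open Set Filter Topology MeasureTheory
open scoped ENNReal NNReal

namespace Pool.Agent.MP_e27144_an

/-- The representative in `[0,1)`. -/
noncomputable def rep (x : AddCircle (1 : ℝ)) : ℝ := (AddCircle.equivIco (1 : ℝ) 0 x : ℝ)

lemma rep_nonneg (x : AddCircle (1 : ℝ)) : 0 ≤ rep x := (AddCircle.equivIco (1 : ℝ) 0 x).2.1

lemma rep_lt_one (x : AddCircle (1 : ℝ)) : rep x < 1 := by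
  exact lt_of_lt_of_eq (AddCircle.equivIco (1 : ℝ) 0 x).2.2 (zero_add 1)

lemma coe_rep (x : AddCircle (1 : ℝ)) : (rep x : AddCircle (1 : ℝ)) = x := AddCircle.coe_equivIco

lemma rep_coe {t : ℝ} (h0 : 0 ≤ t) (h1 : t < 1) : rep (t : AddCircle (1 : ℝ)) = t := by
  have h : t ∈ Ico (0 : ℝ) (0 + 1) := ⟨h0, by rw [zero_add]; exact h1⟩
  unfold rep
  rw [AddCircle.equivIco_coe_eq h]

lemma measurable_rep : Measurable rep :=
  measurable_subtype_coe.comp (AddCircle.measurableEquivIco (1 : ℝ) 0).measurable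

/-- The affine map `x ↦ s x + c`, `0 ≤ x < 1`. -/
noncomputable def aff (s c : ℝ) (x : AddCircle (1 : ℝ)) : AddCircle (1 : ℝ) :=
  ((s * rep x + c : ℝ) : AddCircle (1 : ℝ))

lemma measurable_aff (s c : ℝ) : Measurable (aff s c) :=
  (AddCircle.measurable_mk' (a := (1 : ℝ))).comp ((measurable_rep.const_mul s).add_const c)

/-- The integer part of `n x`, `0 ≤ x < 1`. -/
noncomputable def dig (n : ℕ) (x : AddCircle (1 : ℝ)) : ℕ := ⌊(n : ℝ) * rep x⌋₊

lemma measurable_dig (n : ℕ) : Measurable (dig n) :=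
  Nat.measurable_floor.comp (measurable_rep.const_mul (n : ℝ))

lemma rep_smul (n : ℕ) (x : AddCircle (1 : ℝ)) : rep (n • x) = n * rep x - dig n x := by
  have h0 : 0 ≤ (n : ℝ) * rep x := mul_nonneg (Nat.cast_nonneg _) (rep_nonneg x)
  have h1 : (dig n x : ℝ) ≤ n * rep x := Nat.floor_le h0
  have h2 : (n : ℝ) * rep x < dig n x + 1 := Nat.lt_floor_add_one _
  have h3 : (n • x : AddCircle (1 : ℝ)) = ((n * rep x - dig n x : ℝ) : AddCircle (1 : ℝ)) := by
    have h4 : ((dig n x : ℝ) : AddCircle (1 : ℝ)) = 0 := by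
      rw [AddCircle.coe_eq_zero_iff]
      exact ⟨(dig n x : ℤ), by simp⟩
    rw [AddCircle.coe_sub, h4, sub_zero]
    conv_lhs => rw [← coe_rep x]
    rw [← AddCircle.coe_nsmul, nsmul_eq_mul]
  rw [h3]
  exact rep_coe (by linarith) (by linarith)

lemma smul_aff (s c : ℝ) (n : ℕ) (x : AddCircle (1 : ℝ)) :
    n • aff s c x = aff s c (n • x) +
      ((s * dig n x + (n - 1) * c : ℝ) : AddCircle (1 : ℝ)) := by
  unfold aff
  rw [rep_smul, ← AddCircle.coe_nsmul, ← AddCircle.coe_add, nsmul_eq_mul]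
  congr 1
  ring

lemma rational_of_addOrderOf {t : ℝ} (h : addOrderOf (t : AddCircle (1 : ℝ)) ≠ 0) :
    ∃ q : ℚ, (q : ℝ) = t := by
  have h1 := addOrderOf_nsmul_eq_zero (t : AddCircle (1 : ℝ))
  rw [← AddCircle.coe_nsmul, AddCircle.coe_eq_zero_iff] at h1
  obtain ⟨m, hm⟩ := h1
  refine ⟨(m : ℚ) / (addOrderOf (t : AddCircle (1 : ℝ)) : ℚ), ?_⟩
  have h2 : ((addOrderOf (t : AddCircle (1 : ℝ)) : ℕ) : ℝ) ≠ 0 := Nat.cast_ne_zero.mpr h
  push_cast
  rw [div_eq_iff h2]
  rw [zsmul_eq_mul, mul_one, nsmul_eq_mul] at hm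
  rw [hm]
  ring

/-- The finiteness statement when the first measure is singular. -/
lemma finite_translates_left' {σ ν : Measure (AddCircle (1 : ℝ))} [IsFiniteMeasure σ]
    [IsFiniteMeasure ν]
    (h2 : MeasurePreserving (fun x : AddCircle (1 : ℝ) => (2 : ℕ) • x) σ σ)
    (h3 : MeasurePreserving (fun x : AddCircle (1 : ℝ) => (3 : ℕ) • x) σ σ)
    (hs : σ ⟂ₘ volume) {ρ : ℝ≥0∞} (hρ : ρ ≠ 0) :
    {c : AddCircle (1 : ℝ) | ρ ≤ (σ ⊓ ν.map (fun x => x + c)) univ}.Finite := by
  have hfin := finite_translates (μ := ν) h2 h3 hs hρ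
  refine (hfin.image (fun c => -c)).subset ?_
  intro c hc
  refine ⟨-c, ?_, neg_neg c⟩
  simp only [mem_ofPred_eq] at hc ⊢
  set θ := σ ⊓ ν.map (fun x => x + c) with hθ
  have h1 : θ.map (fun x => x + -c) ≤ σ.map (fun x => x + -c) :=
    Measure.map_mono inf_le_left (measurable_add_const _)
  have h4 : θ.map (fun x => x + -c) ≤ ν := by
    calc θ.map (fun x => x + -c) ≤ (ν.map (fun x => x + c)).map (fun x => x + -c) :=
          Measure.map_mono inf_le_right (measurable_add_const _)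
      _ = ν := by rw [map_add_sub]; simp
  calc ρ ≤ θ univ := hc
    _ = θ.map (fun x => x + -c) univ := by
        rw [Measure.map_apply (measurable_add_const _) MeasurableSet.univ, preimage_univ]
    _ ≤ (ν ⊓ σ.map (fun x => x + -c)) univ := (le_inf h4 h1) univ

/-- If a nonzero measure and its translate are below the singular invariant measure, the
translation is by an element of finite order. -/
lemma torsion_of_le {σ τ : Measure (AddCircle (1 : ℝ))} [IsFiniteMeasure σ]
    (h2 : MeasurePreserving (fun x : AddCircle (1 : ℝ) => (2 : ℕ) • x) σ σ)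
    (h3 : MeasurePreserving (fun x : AddCircle (1 : ℝ) => (3 : ℕ) • x) σ σ)
    (hs : σ ⟂ₘ volume) {c : AddCircle (1 : ℝ)} (hτ : τ ≤ σ) (hτ' : τ.map (fun x => x + c) ≤ σ)
    (h0 : τ ≠ 0) : addOrderOf c ≠ 0 := by
  intro hc
  set ρ := τ univ with hρ
  have hρ0 : ρ ≠ 0 := fun h => h0 (Measure.measure_univ_eq_zero.mp h)
  have hfin := finite_translates_left' (ν := σ) h2 h3 hs hρ0
  have hsub : (range fun n : ℕ => (2 ^ n : ℕ) • c) ⊆
      {c : AddCircle (1 : ℝ) | ρ ≤ (σ ⊓ σ.map (fun x => x + c)) univ} := by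
    rintro _ ⟨n, rfl⟩
    simp only [mem_ofPred_eq]
    have hmσ := mp_pow_one h2 n
    have hms := measurable_smul_nat (2 ^ n)
    set θ := τ.map (fun x => x + c) with hθ
    have hθ' : θ ≤ σ.map (fun x => x + c) := Measure.map_mono hτ (measurable_add_const _)
    have h1 : θ.map (fun x => (2 ^ n : ℕ) • x) ≤ σ := by
      calc θ.map (fun x => (2 ^ n : ℕ) • x) ≤ σ.map (fun x => (2 ^ n : ℕ) • x) :=
            Measure.map_mono hτ' hms
        _ = σ := hmσ.map_eq
    have h4 : θ.map (fun x => (2 ^ n : ℕ) • x) ≤ σ.map (fun x => x + (2 ^ n : ℕ) • c) := by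
      rw [← map_translate hmσ c]
      exact Measure.map_mono hθ' hms
    calc ρ = θ.map (fun x => (2 ^ n : ℕ) • x) univ := by
          rw [Measure.map_apply hms MeasurableSet.univ, preimage_univ, hθ,
            Measure.map_apply (measurable_add_const _) MeasurableSet.univ, preimage_univ]
      _ ≤ _ := (le_inf h1 h4) univ
  have hinj : Function.Injective fun n : ℕ => (2 ^ n : ℕ) • c := by
    have hni : ¬ IsOfFinAddOrder c := addOrderOf_eq_zero_iff.mp hc
    intro m n hmn
    have := (injective_nsmul_iff_not_isOfFinAddOrder.mpr hni) hmn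
    exact Nat.pow_right_injective le_rfl this
  exact (Set.infinite_range_of_injective hinj) (hfin.subset hsub)

/-- Small balls have small measure, uniformly, for an atomless measure. -/
lemma small_balls {ν : Measure (AddCircle (1 : ℝ))} [IsFiniteMeasure ν] (hat : ∀ x, ν {x} = 0)
    {ε : ℝ≥0∞} (hε : ε ≠ 0) : ∃ δ : ℝ, 0 < δ ∧ ∀ x, ν (Metric.closedBall x δ) < ε := by
  by_contra hcon
  push Not at hcon
  have h1 : ∀ n : ℕ, ∃ x, ε ≤ ν (Metric.closedBall x (1 / ((n : ℝ) + 1))) :=
    fun n => hcon _ (by positivity)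
  choose x hx using h1
  obtain ⟨y, φ, hφ, hy⟩ := CompactSpace.tendsto_subseq x
  have h2 : ∀ n : ℕ, ε ≤ ν (Metric.closedBall y (1 / ((n : ℝ) + 1))) := by
    intro n
    obtain ⟨n₀, hn₀⟩ := Metric.tendsto_atTop.mp hy (1 / (2 * ((n : ℝ) + 1))) (by positivity)
    set k := max n₀ (2 * (n + 1)) with hk
    have h3 := hn₀ k (le_max_left _ _)
    refine (hx (φ k)).trans (measure_mono ?_)
    apply Metric.closedBall_subset_closedBall'
    have h4 : (2 * (n + 1) : ℕ) ≤ φ k := (le_max_right _ _).trans hφ.le_apply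
    have h5 : (2 * ((n : ℝ) + 1)) ≤ φ k := by exact_mod_cast h4
    have h6 : 1 / ((φ k : ℝ) + 1) ≤ 1 / (2 * ((n : ℝ) + 1)) :=
      one_div_le_one_div_of_le (by positivity) (by linarith)
    have h7 : 1 / (2 * ((n : ℝ) + 1)) + 1 / (2 * ((n : ℝ) + 1)) = 1 / ((n : ℝ) + 1) := by
      field_simp
      norm_num
    simp only [Function.comp_apply] at h3
    linarith
  have h3 : Tendsto (ν ∘ fun n : ℕ => Metric.closedBall y (1 / ((n : ℝ) + 1))) atTop
      (𝓝 (ν (⋂ n : ℕ, Metric.closedBall y (1 / ((n : ℝ) + 1))))) := by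
    apply tendsto_measure_iInter_atTop
    · exact fun n => Metric.isClosed_closedBall.measurableSet.nullMeasurableSet
    · intro m n hmn
      apply Metric.closedBall_subset_closedBall
      apply one_div_le_one_div_of_le (by positivity)
      have : (m : ℝ) ≤ n := by exact_mod_cast hmn
      linarith
    · exact ⟨0, measure_ne_top _ _⟩
  have h4 : (⋂ n : ℕ, Metric.closedBall y (1 / ((n : ℝ) + 1))) = {y} := by
    apply Subset.antisymm
    · intro z hz
      rw [mem_iInter] at hz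
      rw [mem_singleton_iff, ← dist_le_zero]
      refine ge_of_tendsto' tendsto_one_div_add_atTop_nhds_zero_nat (fun n => ?_)
      exact Metric.mem_closedBall.mp (hz n)
    · rintro z rfl
      rw [mem_iInter]
      intro n
      exact Metric.mem_closedBall_self (by positivity)
  rw [h4, hat] at h3
  have h5 : ε ≤ 0 := ge_of_tendsto' h3 h2
  exact hε (le_antisymm h5 zero_le)

end Pool.Agent.MP_e27144_an
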