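import Pool.Agent.MP_e27144_an.AffFin
import Pool.Agent.MP_e27144_an.AffCount

/-!
# Affine rigidity of measures invariant under `×2` and `×3`

A probability measure on the circle invariant under `x ↦ 2x` and `x ↦ 3x` is the sum of a multiple of
Lebesgue measure and an invariant measure `σ` singular to Lebesgue measure. The measure `σ` is
singular to all but countably many affine images of every finite measure on the line, to all linear
images with a coefficient which is not rational of measures on tori invariant under one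
multiplication, and to the laws of stationary processes whose values at different times are related
by countably many affine maps which are typically not rational.
-/

open Set Filter Topology MeasureTheory
open scoped ENNReal NNReal

namespace Pool.Agent.MP_e27144_an.AffineRigidity

open Pool.Agent.MP_e27144_an

/-- **Main theorem.** -/
theorem result (μ : Measure (AddCircle (1 : ℝ))) (_hμ : IsProbabilityMeasure μ)
    (_h2 : MeasurePreserving (fun x : AddCircle (1 : ℝ) => (2 : ℕ) • x) μ μ)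
    (_h3 : MeasurePreserving (fun x : AddCircle (1 : ℝ) => (3 : ℕ) • x) μ μ) :
    ∃ (a : ℝ≥0∞) (σ : Measure (AddCircle (1 : ℝ))),
      μ = a • volume + σ ∧ σ ⟂ₘ volume ∧
      MeasurePreserving (fun x : AddCircle (1 : ℝ) => (2 : ℕ) • x) σ σ ∧
      MeasurePreserving (fun x : AddCircle (1 : ℝ) => (3 : ℕ) • x) σ σ ∧
      ((∀ E : Set (AddCircle (1 : ℝ)), MeasurableSet E →
          (fun x : AddCircle (1 : ℝ) => (2 : ℕ) • x) ⁻¹' E = E →
          (fun x : AddCircle (1 : ℝ) => (3 : ℕ) • x) ⁻¹' E = E → μ E = 0 ∨ μ E = 1) →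
        μ = volume ∨ μ = σ) ∧
      (∀ ν : Measure (AddCircle (1 : ℝ)), IsFiniteMeasure ν → ∀ ρ : ℝ≥0∞, ρ ≠ 0 →
        {c : AddCircle (1 : ℝ) | ρ ≤ (σ ⊓ ν.map (fun x => x + c)) univ}.Finite) ∧
      ((∀ x, σ {x} = 0) → ∀ ν : Measure ℝ, IsFiniteMeasure ν →
        {p : ℝ × ℝ | ¬ σ ⟂ₘ ν.map
          (fun x => ((p.1 * x + p.2 : ℝ) : AddCircle (1 : ℝ)))}.Countable) ∧
      (∀ (k m : ℕ) (ν : Measure (Fin k → AddCircle (1 : ℝ))), 1 < m → IsFiniteMeasure ν →
        MeasurePreserving (fun x : Fin k → AddCircle (1 : ℝ) => m • x) ν ν →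
        ∀ (s : Fin k → ℝ) (c : ℝ), (∃ i, Irrational (s i)) ∨ Irrational c →
        ((∃ i, Irrational (s i)) → ∀ n : Fin k → ℤ, n ≠ 0 → ∀ y,
          ν {x | ∑ i, n i • x i = y} = 0) →
        σ ⟂ₘ ν.map (fun x => ((∑ i, s i * (AddCircle.equivIco (1 : ℝ) 0 (x i) : ℝ) + c : ℝ) :
          AddCircle (1 : ℝ)))) ∧
      (∀ (Ω : Type) (_ : MeasurableSpace Ω) (P : Measure Ω) (S : Ω → Ω)
        (g : Ω → AddCircle (1 : ℝ)) (β z : ℕ → Ω → ℝ), IsFiniteMeasure P →
        MeasurePreserving S P P → Measurable g →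
        (∀ x, σ {x} = 0 ∨ P (g ⁻¹' {x}) = 0) →
        (∀ b, (range (β b)).Countable ∧ (range (z b)).Countable) →
        (∀ b w, g (S^[b] w) = ((β b w * (AddCircle.equivIco (1 : ℝ) 0 (g w) : ℝ) + z b w : ℝ) :
          AddCircle (1 : ℝ))) →
        Tendsto (fun b : ℕ => P {w | ¬ Irrational (β b w) ∧ ¬ Irrational (z b w)})
          atTop (𝓝 0) →
        σ ⟂ₘ P.map g) := by
  have herg2 : Ergodic (fun x : AddCircle (1 : ℝ) => (2 : ℕ) • x) volume :=
    AddCircle.ergodic_nsmul (by norm_num)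
  have herg3 : Ergodic (fun x : AddCircle (1 : ℝ) => (3 : ℕ) • x) volume :=
    AddCircle.ergodic_nsmul (by norm_num)
  set σ := μ.singularPart volume with hσ
  have hσs : σ ⟂ₘ volume := μ.mutuallySingular_singularPart volume
  have hσ2 := _h2.singularPart herg2.toMeasurePreserving
  have hσ3 := _h3.singularPart herg3.toMeasurePreserving
  have hac2 := _h2.withDensity_rnDeriv herg2.toMeasurePreserving
  set α := volume.withDensity (μ.rnDeriv volume) with hα
  have hαfin : IsFiniteMeasure α := by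
    refine isFiniteMeasure_of_le μ ?_
    exact μ.withDensity_rnDeriv_le volume
  obtain ⟨a, ha⟩ := herg2.eq_smul_of_absolutelyContinuous hac2 (withDensity_absolutelyContinuous _ _)
  have hdecomp : μ = a • volume + σ := by
    conv_lhs => rw [μ.haveLebesgueDecomposition_add volume]
    rw [← hα, ← hσ, ha, add_comm]
  refine ⟨a, σ, hdecomp, hσs, hσ2, hσ3, ?_, ?_, ?_, ?_, ?_⟩
  rotate_left
  · intro ν hν ρ hρ
    exact finite_translates_left' hσ2 hσ3 hσs hρ
  · intro hat ν hν
    exact countable_affine hσ2 hσ3 hσs hat ν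
  · intro k m ν hm hν hmν s c hsc hat
    exact lin_singular hσ2 hσ3 hσs hm hmν hsc hat
  · intro Ω _ P S g β z hP hS hg hat hβz hgS hR
    refine process_singular hσ2 hσ3 hσs hS hg (Y := fun b w => (β b w, z b w)) ?_ hat hgS ?_
    · intro b
      refine ((hβz b).1.prod (hβz b).2).mono ?_
      rintro _ ⟨w, rfl⟩
      exact ⟨mem_range_self w, mem_range_self w⟩
    · refine hR.congr fun b => ?_
      congr 1
      ext w
      simp only [mem_ofPred_eq, Prod.mk.injEq, Irrational, mem_range, not_not]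
      constructor
      · rintro ⟨⟨p, hp⟩, ⟨q, hq⟩⟩
        exact ⟨p, q, hp.symm, hq.symm⟩
      · rintro ⟨p, q, hp, hq⟩
        exact ⟨⟨p, hp.symm⟩, ⟨q, hq.symm⟩⟩
  intro herg
  by_cases ha0 : a = 0
  · right
    rw [hdecomp, ha0]
    simp
  left
  -- an invariant null set carrying `σ`
  obtain ⟨N, hNm, hσN, hvN⟩ := hσs
  -- `σ N = 0`, `volume Nᶜ = 0`
  set E : Set (AddCircle (1 : ℝ)) :=
    {x | ∃ n : ℕ, ∀ i j : ℕ, n ≤ i → n ≤ j → (2 ^ i * 3 ^ j : ℕ) • x ∈ Nᶜ} with hE
  have hEm : MeasurableSet E := by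
    have : E = ⋃ n : ℕ, ⋂ i : ℕ, ⋂ j : ℕ, ⋂ (_ : n ≤ i), ⋂ (_ : n ≤ j),
        (fun x : AddCircle (1 : ℝ) => (2 ^ i * 3 ^ j : ℕ) • x) ⁻¹' Nᶜ := by
      ext x; simp [hE]
    rw [this]
    exact MeasurableSet.iUnion fun n => MeasurableSet.iInter fun i => MeasurableSet.iInter fun j =>
      MeasurableSet.iInter fun _ => MeasurableSet.iInter fun _ =>
        measurable_smul_nat _ hNm.compl
  have hE2 : (fun x : AddCircle (1 : ℝ) => (2 : ℕ) • x) ⁻¹' E = E := by
    ext x
    simp only [mem_preimage, hE, mem_ofPred_eq]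
    constructor
    · rintro ⟨n, hn⟩
      refine ⟨n + 1, fun i j hi hj => ?_⟩
      have := hn (i - 1) j (by omega) (by omega)
      rw [smul_smul] at this
      have e : 2 ^ (i - 1) * 3 ^ j * 2 = 2 ^ i * 3 ^ j := by
        have : 2 ^ i = 2 ^ (i - 1) * 2 := by
          rw [← pow_succ]; congr 1; omega
        rw [this]; ring
      rwa [e] at this
    · rintro ⟨n, hn⟩
      refine ⟨n, fun i j hi hj => ?_⟩
      have := hn (i + 1) j (by omega) hj
      rw [smul_smul]
      have e : 2 ^ i * 3 ^ j * 2 = 2 ^ (i + 1) * 3 ^ j := by ring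
      rwa [e]
  have hE3 : (fun x : AddCircle (1 : ℝ) => (3 : ℕ) • x) ⁻¹' E = E := by
    ext x
    simp only [mem_preimage, hE, mem_ofPred_eq]
    constructor
    · rintro ⟨n, hn⟩
      refine ⟨n + 1, fun i j hi hj => ?_⟩
      have := hn i (j - 1) (by omega) (by omega)
      rw [smul_smul] at this
      have e : 2 ^ i * 3 ^ (j - 1) * 3 = 2 ^ i * 3 ^ j := by
        have : 3 ^ j = 3 ^ (j - 1) * 3 := by
          rw [← pow_succ]; congr 1; omega
        rw [this]; ring
      rwa [e] at this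
    · rintro ⟨n, hn⟩
      refine ⟨n, fun i j hi hj => ?_⟩
      have := hn i (j + 1) hi (by omega)
      rw [smul_smul]
      have e : 2 ^ i * 3 ^ j * 3 = 2 ^ i * 3 ^ (j + 1) := by ring
      rwa [e]
  have hvolE : (volume : Measure (AddCircle (1 : ℝ))) E = 0 := by
    have hsub : E ⊆ ⋃ n : ℕ, (fun x : AddCircle (1 : ℝ) => (2 ^ n * 3 ^ n : ℕ) • x) ⁻¹' Nᶜ := by
      rintro x ⟨n, hn⟩
      exact mem_iUnion.mpr ⟨n, hn n n le_rfl le_rfl⟩
    refine measure_mono_null hsub (measure_iUnion_null fun n => ?_)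
    rw [(mp_pow herg2.toMeasurePreserving herg3.toMeasurePreserving n n).measure_preimage
      hNm.compl.nullMeasurableSet]
    exact hvN
  have hσE : σ Eᶜ = 0 := by
    have hsub : Eᶜ ⊆ ⋃ i : ℕ, ⋃ j : ℕ,
        (fun x : AddCircle (1 : ℝ) => (2 ^ i * 3 ^ j : ℕ) • x) ⁻¹' N := by
      intro x hx
      simp only [hE, mem_compl_iff, mem_ofPred_eq, not_exists, not_forall] at hx
      obtain ⟨i, j, -, -, hij⟩ := hx 0
      simp only [not_not] at hij
      exact mem_iUnion.mpr ⟨i, mem_iUnion.mpr ⟨j, hij⟩⟩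
    refine measure_mono_null hsub (measure_iUnion_null fun i => measure_iUnion_null fun j => ?_)
    rw [(mp_pow hσ2 hσ3 i j).measure_preimage hNm.nullMeasurableSet]
    exact hσN
  have hσuniv : σ univ = σ E := by
    rw [← measure_add_measure_compl hEm, hσE, add_zero]
  have hμE : μ E = σ univ := by
    rw [hdecomp, Measure.add_apply, Measure.smul_apply, hvolE, smul_zero, zero_add, hσuniv]
  have huniv : a + σ univ = 1 := by
    have h1 : μ univ = 1 := measure_univ
    rw [hdecomp] at h1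
    simpa using h1
  have hσ0 : σ univ = 0 := by
    rcases herg E hEm hE2 hE3 with h | h
    · rw [← hμE, h]
    · exfalso
      rw [hμE] at h
      rw [h] at huniv
      have : a + 1 = 0 + 1 := by rw [huniv, zero_add]
      exact ha0 ((ENNReal.add_left_inj ENNReal.one_ne_top).mp this)
  have ha1 : a = 1 := by rw [hσ0, add_zero] at huniv; exact huniv
  have hσz : σ = 0 := Measure.measure_univ_eq_zero.mp hσ0
  rw [hdecomp, hσz, ha1]
  simp

end Pool.Agent.MP_e27144_an.AffineRigidity
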