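import Pool.Agent.MP_e27144_an.LeadMain

/-!
# Mass of small balls for measures invariant under multiplication by 2 and by 3
-/

open Set Filter Topology MeasureTheory
open scoped ENNReal NNReal

namespace Pool.Agent.MP_e27144_an

lemma two_three_inj {a b a' b' : ℕ} (h : 2 ^ a * 3 ^ b = 2 ^ a' * 3 ^ b') : a = a' ∧ b = b' := by
  have h2 : ∀ k : ℕ, (3 ^ k : ℕ).factorization 2 = 0 := by
    intro k; rw [Nat.factorization_pow]
    simp [Nat.factorization_eq_zero_of_not_dvd (show ¬ 2 ∣ 3 by decide)]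
  have h3 : ∀ k : ℕ, (2 ^ k : ℕ).factorization 3 = 0 := by
    intro k; rw [Nat.factorization_pow]
    simp [Nat.factorization_eq_zero_of_not_dvd (show ¬ 3 ∣ 2 by decide)]
  have e := congrArg Nat.factorization h
  rw [Nat.factorization_mul (by positivity) (by positivity),
    Nat.factorization_mul (by positivity) (by positivity)] at e
  constructor
  · have := DFunLike.congr_fun e 2
    simp only [Finsupp.add_apply, h2, add_zero] at this
    simpa [Nat.factorization_pow, Nat.prime_two.factorization_self] using this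
  · have := DFunLike.congr_fun e 3
    simp only [Finsupp.add_apply, h3, zero_add] at this
    simpa [Nat.factorization_pow, Nat.prime_three.factorization_self] using this

/-- The number of pairs `(a, b)` with `a log 2 + b log 3 ≤ Y` is at least `Y² / (2 log 2 log 3)`. -/
lemma card_pairs {Y : ℝ} (hY : 0 ≤ Y) : ∃ T : Finset (ℕ × ℕ),
    (∀ t ∈ T, (2 : ℝ) ^ t.1 * 3 ^ t.2 ≤ Real.exp Y) ∧
      Y ^ 2 / (2 * Real.log 2 * Real.log 3) ≤ T.card := by
  have l2 : 0 < Real.log 2 := Real.log_pos (by norm_num)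
  have l3 : 0 < Real.log 3 := Real.log_pos (by norm_num)
  set K : ℕ := ⌊Y / Real.log 3⌋₊ with hK
  have hK1 : (K : ℝ) ≤ Y / Real.log 3 := Nat.floor_le (by positivity)
  have hK2 : Y / Real.log 3 < K + 1 := Nat.lt_floor_add_one _
  have hK1' : (K : ℝ) * Real.log 3 ≤ Y := by rwa [le_div_iff₀ l3] at hK1
  have hK2' : Y < (K + 1) * Real.log 3 := by rwa [div_lt_iff₀ l3] at hK2
  set g : ℕ → ℕ := fun b => ⌊(Y - b * Real.log 3) / Real.log 2⌋₊ + 1 with hg
  let T : Finset (ℕ × ℕ) := (Finset.range (K + 1)).biUnion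
    fun b => (Finset.range (g b)).image fun a => (a, b)
  have hcard : T.card = ∑ b ∈ Finset.range (K + 1), g b := by
    rw [Finset.card_biUnion]
    · refine Finset.sum_congr rfl fun b _ => ?_
      rw [Finset.card_image_of_injective _ (fun a a' h => by simpa using congrArg Prod.fst h),
        Finset.card_range]
    · intro b _ b' _ hbb'
      rw [Function.onFun, Finset.disjoint_left]
      intro t ht ht'
      simp only [Finset.mem_image] at ht ht'
      obtain ⟨a, -, rfl⟩ := ht
      obtain ⟨a', -, h⟩ := ht'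
      exact hbb' (congrArg Prod.snd h).symm
  refine ⟨T, ?_, ?_⟩
  · intro t ht
    simp only [T, Finset.mem_biUnion, Finset.mem_image, Finset.mem_range] at ht
    obtain ⟨b, hb, a, ha, rfl⟩ := ht
    have hb' : (b : ℝ) ≤ K := by exact_mod_cast Nat.lt_succ_iff.mp hb
    have hnn : 0 ≤ Y - b * Real.log 3 := by nlinarith
    have ha' : (a : ℝ) ≤ (Y - b * Real.log 3) / Real.log 2 := by
      have h1 : a ≤ ⌊(Y - b * Real.log 3) / Real.log 2⌋₊ := by
        simp only [hg] at ha; omega
      exact le_trans (by exact_mod_cast h1) (Nat.floor_le (by positivity))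
    rw [le_div_iff₀ l2] at ha'
    show (2 : ℝ) ^ a * 3 ^ b ≤ Real.exp Y
    rw [← Real.log_le_iff_le_exp (by positivity), Real.log_mul (by positivity) (by positivity),
      Real.log_pow, Real.log_pow]
    linarith
  · rw [hcard]
    push_cast
    have h1 : ∀ b ∈ Finset.range (K + 1), (Y - b * Real.log 3) / Real.log 2 ≤ (g b : ℝ) := by
      intro b _
      simp only [hg]
      push_cast
      exact (Nat.lt_floor_add_one _).le
    refine le_trans ?_ (Finset.sum_le_sum h1)
    rw [← Finset.sum_div, Finset.sum_sub_distrib, Finset.sum_const, Finset.card_range,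
      ← Finset.sum_mul]
    have h2 : ∑ i ∈ Finset.range (K + 1), (i : ℝ) = K * (K + 1) / 2 := by
      have := Finset.sum_range_id_mul_two (K + 1)
      have h3 : ((∑ i ∈ Finset.range (K + 1), i : ℕ) : ℝ) * 2 = (K + 1) * K := by
        have := congrArg (Nat.cast : ℕ → ℝ) this
        push_cast at this ⊢
        simpa using this
      push_cast at h3
      linarith
    rw [h2, div_le_div_iff₀ (by positivity) l2]
    have e : (K + 1 : ℕ) • Y = (K + 1) * Y := by simp [nsmul_eq_mul]
    rw [e]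
    have h4 : Y ^ 2 ≤ ((K + 1) * Y - K * (K + 1) / 2 * Real.log 3) * (2 * Real.log 3) := by
      have h5 : 0 ≤ ((K + 1) * Real.log 3 - Y) * (Y - K * Real.log 3) :=
        mul_nonneg (by linarith) (by linarith)
      nlinarith [mul_nonneg hY (sub_nonneg.mpr hK2'.le), mul_nonneg (sub_nonneg.mpr hK1') hY, l3.le,
        mul_nonneg (sub_nonneg.mpr hK1') (sub_nonneg.mpr hK2'.le)]
    nlinarith [h4, l2]

/-- Either the ball `B(x, r)` has mass at most `1 / #T`, or `x` has a good rational approximation. -/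
lemma ball_mass_or_approx {μ : Measure (AddCircle (1 : ℝ))} [IsProbabilityMeasure μ]
    (h2 : MeasurePreserving (fun x : AddCircle (1 : ℝ) => (2 : ℕ) • x) μ μ)
    (h3 : MeasurePreserving (fun x : AddCircle (1 : ℝ) => (3 : ℕ) • x) μ μ)
    (x : AddCircle (1 : ℝ)) {r X : ℝ} (hr : 0 < r) (T : Finset (ℕ × ℕ))
    (hT : ∀ t ∈ T, (2 : ℝ) ^ t.1 * 3 ^ t.2 ≤ X) :
    (T.card : ℝ) * μ.real (Metric.ball x r) ≤ 1 ∨
      ∃ q : ℕ, 1 ≤ q ∧ (q : ℝ) ≤ X ∧ ‖q • x‖ < 2 * X * r := by
  by_cases hdis : (T : Set (ℕ × ℕ)).PairwiseDisjoint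
      (fun t => Metric.ball ((2 ^ t.1 * 3 ^ t.2 : ℕ) • x) ((2 : ℝ) ^ t.1 * 3 ^ t.2 * r))
  · left
    have hmass : ∀ t ∈ T, μ.real (Metric.ball x r) ≤
        μ.real (Metric.ball ((2 ^ t.1 * 3 ^ t.2 : ℕ) • x) ((2 : ℝ) ^ t.1 * 3 ^ t.2 * r)) := by
      intro t _
      have hmp := mp_pow h2 h3 t.1 t.2
      rw [measureReal_def, measureReal_def]
      refine ENNReal.toReal_mono (measure_ne_top _ _) ?_
      conv_rhs => rw [← hmp.measure_preimage Metric.isOpen_ball.measurableSet.nullMeasurableSet]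
      refine measure_mono ?_
      intro y hy
      simp only [mem_preimage, Metric.mem_ball, dist_eq_norm] at hy ⊢
      rw [← smul_sub]
      calc ‖(2 ^ t.1 * 3 ^ t.2 : ℕ) • (y - x)‖ ≤ ((2 ^ t.1 * 3 ^ t.2 : ℕ) : ℝ) * ‖y - x‖ :=
            norm_nsmul_le
        _ < (2 : ℝ) ^ t.1 * 3 ^ t.2 * r := by
            push_cast
            exact mul_lt_mul_of_pos_left hy (by positivity)
    calc (T.card : ℝ) * μ.real (Metric.ball x r) = ∑ t ∈ T, μ.real (Metric.ball x r) := by
          rw [Finset.sum_const, nsmul_eq_mul]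
      _ ≤ ∑ t ∈ T, μ.real
            (Metric.ball ((2 ^ t.1 * 3 ^ t.2 : ℕ) • x) ((2 : ℝ) ^ t.1 * 3 ^ t.2 * r)) :=
          Finset.sum_le_sum hmass
      _ = μ.real (⋃ t ∈ T,
            Metric.ball ((2 ^ t.1 * 3 ^ t.2 : ℕ) • x) ((2 : ℝ) ^ t.1 * 3 ^ t.2 * r)) := by
          rw [measureReal_biUnion_finset hdis (fun t _ => Metric.isOpen_ball.measurableSet)]
      _ ≤ 1 := measureReal_le_one
  · right
    simp only [Set.PairwiseDisjoint, Set.Pairwise, not_forall] at hdis
    obtain ⟨t, ht, t', ht', hne, hnd⟩ := hdis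
    rw [Function.onFun, Set.not_disjoint_iff] at hnd
    obtain ⟨z, hz, hz'⟩ := hnd
    simp only [Metric.mem_ball] at hz hz'
    have ht := hT t ht
    have ht' := hT t' ht'
    set s : ℕ := 2 ^ t.1 * 3 ^ t.2 with hs
    set s' : ℕ := 2 ^ t'.1 * 3 ^ t'.2 with hs'
    have hsr : ((2 : ℝ) ^ t.1 * 3 ^ t.2) = s := by rw [hs]; push_cast; ring
    have hsr' : ((2 : ℝ) ^ t'.1 * 3 ^ t'.2) = s' := by rw [hs']; push_cast; ring
    rw [hsr] at ht hz
    rw [hsr'] at ht' hz'
    have hss' : s ≠ s' := by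
      intro h
      obtain ⟨e1, e2⟩ := two_three_inj h
      exact hne (Prod.ext e1 e2)
    have hd : ‖s • x - s' • x‖ < 2 * X * r := by
      rw [← dist_eq_norm]
      calc dist (s • x) (s' • x) ≤ dist z (s • x) + dist z (s' • x) := dist_triangle_left _ _ _
        _ < s * r + s' * r := add_lt_add hz hz'
        _ ≤ X * r + X * r := by gcongr
        _ = 2 * X * r := by ring
    rcases lt_or_gt_of_ne hss' with h | h
    · refine ⟨s' - s, by omega, ?_, ?_⟩
      · rw [Nat.cast_sub h.le]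
        have : (0 : ℝ) ≤ s := by positivity
        linarith
      · rw [sub_nsmul _ h.le, ← sub_eq_add_neg, norm_sub_rev]; exact hd
    · refine ⟨s - s', by omega, ?_, ?_⟩
      · rw [Nat.cast_sub h.le]
        have : (0 : ℝ) ≤ s' := by positivity
        linarith
      · rw [sub_nsmul _ h.le, ← sub_eq_add_neg]; exact hd

end Pool.Agent.MP_e27144_an
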