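import Pool.Agent.MP_e27144_an.LeadSemigroup

/-!
# Orbits of small nonzero points of the circle under the semigroup `{2 ^ a * 3 ^ b}` are nearly dense,
and translates of compact sets
-/

open Set Filter Topology MeasureTheory
open scoped ENNReal NNReal

namespace Pool.Agent.MP_e27144_an

/-- Every point of the circle has a representative whose absolute value is its norm. -/
lemma exists_rep (z : AddCircle (1 : ℝ)) : ∃ t : ℝ, (t : AddCircle (1 : ℝ)) = z ∧ |t| = ‖z‖ := by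
  obtain ⟨x, rfl⟩ := QuotientAddGroup.mk_surjective z
  refine ⟨x - round x, ?_, ?_⟩
  · rw [AddCircle.coe_sub]
    have : (((round x : ℤ) : ℝ) : AddCircle (1 : ℝ)) = 0 := by
      rw [AddCircle.coe_eq_zero_iff]; exact ⟨round x, by simp⟩
    rw [this, sub_zero]
  · exact (UnitAddCircle.norm_eq (x := x)).symm

/-- Every point of the circle has a representative in `[1, 2)`. -/
lemma exists_rep_Ico (z : AddCircle (1 : ℝ)) : ∃ t : ℝ, (t : AddCircle (1 : ℝ)) = z ∧ 1 ≤ t ∧ t < 2 := by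
  obtain ⟨x, rfl⟩ := QuotientAddGroup.mk_surjective z
  refine ⟨Int.fract x + 1, ?_, by linarith [Int.fract_nonneg x], by linarith [Int.fract_lt_one x]⟩
  have h : Int.fract x + 1 = x - ((⌊x⌋ - 1 : ℤ) : ℝ) := by
    rw [Int.fract]; push_cast; ring
  rw [h, AddCircle.coe_sub]
  have : ((((⌊x⌋ - 1 : ℤ) : ℝ)) : AddCircle (1 : ℝ)) = 0 := by
    rw [AddCircle.coe_eq_zero_iff]; exact ⟨⌊x⌋ - 1, by simp⟩
  rw [this, sub_zero]

lemma norm_coe_le (t : ℝ) : ‖(t : AddCircle (1 : ℝ))‖ ≤ |t| := by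
  have := UnitAddCircle.norm_eq (x := t)
  have h2 := round_le t 0
  simp only [Int.cast_zero, sub_zero] at h2
  calc ‖(t : AddCircle (1 : ℝ))‖ = |t - round t| := this
    _ ≤ |t| := h2

/-- If `z ≠ 0` is close to `0`, its orbit under `{2 ^ a * 3 ^ b}` is `ε`-dense in the circle. -/
lemma orbit_dense_of_small {ε : ℝ} (hε : 0 < ε) :
    ∃ δ : ℝ, 0 < δ ∧ ∀ z : AddCircle (1 : ℝ), z ≠ 0 → ‖z‖ < δ → ∀ y : AddCircle (1 : ℝ),
      ∃ a b : ℕ, ‖(2 ^ a * 3 ^ b : ℕ) • z - y‖ < ε := by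
  obtain ⟨X₀, hX₀, hX⟩ := exists_between (u := 1 + ε / 2) (by linarith)
  have hX₀pos : 0 < X₀ := by linarith
  have main : ∀ t : ℝ, 0 < t → t < 1 / X₀ → ∀ y : AddCircle (1 : ℝ),
      ∃ a b : ℕ, ‖(2 ^ a * 3 ^ b : ℕ) • (t : AddCircle (1 : ℝ)) - y‖ < ε := by
    intro t ht htX y
    obtain ⟨y', rfl, hy1, hy2⟩ := exists_rep_Ico y
    have hX0t : X₀ ≤ y' / t := by
      rw [le_div_iff₀ ht]
      rw [lt_div_iff₀ hX₀pos] at htX
      nlinarith
    obtain ⟨a, b, hab, hab'⟩ := hX _ hX0t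
    refine ⟨a, b, ?_⟩
    rw [le_div_iff₀ ht] at hab
    rw [div_lt_iff₀ ht] at hab'
    rw [← AddCircle.coe_nsmul, ← AddCircle.coe_sub]
    refine lt_of_le_of_lt (norm_coe_le _) ?_
    rw [nsmul_eq_mul]
    push_cast
    rw [abs_lt]
    constructor
    · nlinarith
    · nlinarith
  refine ⟨1 / X₀, by positivity, fun z hz hzn y => ?_⟩
  obtain ⟨t, rfl, ht⟩ := exists_rep z
  have ht0 : t ≠ 0 := by
    rintro rfl
    exact hz (by simp)
  rcases lt_or_gt_of_ne ht0 with h | h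
  · have := main (-t) (by linarith) (by rw [← abs_of_neg h, ht]; exact hzn) (-y)
    obtain ⟨a, b, hab⟩ := this
    refine ⟨a, b, ?_⟩
    rw [AddCircle.coe_neg, smul_neg, neg_sub_neg, ← norm_neg, neg_sub] at hab
    exact hab
  · exact main t h (by rw [← abs_of_pos h, ht]; exact hzn) y

/-- For a compact set `K`, the measure of the translate `{x | x - y ∈ K}` is upper semicontinuous in `y`. -/
lemma isClosed_translate {ν : Measure (AddCircle (1 : ℝ))} [IsFiniteMeasure ν]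
    {K : Set (AddCircle (1 : ℝ))} (hK : IsCompact K) (r : ℝ≥0∞) :
    IsClosed {y : AddCircle (1 : ℝ) | r ≤ ν ((fun x => x - y) ⁻¹' K)} := by
  rw [← isOpen_compl_iff]
  rw [isOpen_iff_mem_nhds]
  intro y hy
  simp only [mem_compl_iff, mem_ofPred_eq, not_le] at hy
  obtain ⟨U, hKU, hU, hνU⟩ := Set.exists_isOpen_lt_of_lt _ r hy
  -- the translates of `K` near `y` are contained in `U`
  have hcont : Continuous fun p : AddCircle (1 : ℝ) × AddCircle (1 : ℝ) => p.1 + p.2 :=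
    continuous_add
  have hsub : K ×ˢ {y} ⊆ (fun p : AddCircle (1 : ℝ) × AddCircle (1 : ℝ) => p.1 + p.2) ⁻¹' U := by
    rintro ⟨k, y'⟩ ⟨hk, hy'⟩
    simp only [mem_singleton_iff] at hy'
    subst hy'
    apply hKU
    simpa using hk
  obtain ⟨V, W, hV, hW, hKV, hyW, hVW⟩ := generalized_tube_lemma hK isCompact_singleton
    (hU.preimage hcont) hsub
  filter_upwards [hW.mem_nhds (hyW (mem_singleton y))] with y' hy'
  simp only [mem_compl_iff, mem_ofPred_eq, not_le]
  refine lt_of_le_of_lt (measure_mono ?_) hνU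
  intro x hx
  have : (x - y', y') ∈ V ×ˢ W := ⟨hKV hx, hy'⟩
  have := hVW this
  simpa using this

end Pool.Agent.MP_e27144_an
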