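import Mathlib

/-!
# A quantitative pigeonhole principle for bounded functions
-/

open Set Filter Topology MeasureTheory
open scoped ENNReal NNReal

namespace Pool.Agent.MP_e27144_an

/-- Infinitely many `[0,1]`-valued functions with integral at least `ρ` on a finite measure space:
two of them have a product with integral at least `r`, where `r` depends only on `ρ` and the mass. -/
lemma exists_integral_mul_ge {α : Type*} [MeasurableSpace α] (μ : Measure α) [IsFiniteMeasure μ]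
    {ρ : ℝ} (hρ : 0 < ρ) :
    ∃ r : ℝ, 0 < r ∧ ∀ f : ℕ → α → ℝ, (∀ n, Measurable (f n)) → (∀ n x, 0 ≤ f n x) →
      (∀ n x, f n x ≤ 1) → (∀ n, ρ ≤ ∫ x, f n x ∂μ) →
      ∀ n₀ : ℕ, ∃ i j : ℕ, n₀ ≤ i ∧ i < j ∧ r ≤ ∫ x, f i x * f j x ∂μ := by
  set M : ℝ := μ.real univ with hM
  have hM0 : 0 ≤ M := measureReal_nonneg
  refine ⟨ρ ^ 2 / (2 * (M + 1)), by positivity, ?_⟩
  intro f hmeas h0 h1 hint n₀
  by_contra hcon
  push Not at hcon
  -- choose `N` large
  obtain ⟨N, hN⟩ := exists_nat_gt (2 * (M + 1) ^ 2 / ρ ^ 2)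
  have hfint : ∀ n, Integrable (f n) μ := fun n =>
    Integrable.of_bound (hmeas n).aestronglyMeasurable 1
      (Eventually.of_forall fun x => by
        rw [Real.norm_eq_abs, abs_of_nonneg (h0 n x)]; exact h1 n x)
  have hffint : ∀ i j, Integrable (fun x => f i x * f j x) μ := fun i j =>
    Integrable.of_bound ((hmeas i).mul (hmeas j)).aestronglyMeasurable 1
      (Eventually.of_forall fun x => by
        rw [Real.norm_eq_abs, abs_of_nonneg (mul_nonneg (h0 i x) (h0 j x))]
        exact mul_le_one₀ (h1 i x) (h0 j x) (h1 j x))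
  set s : Finset ℕ := Finset.Ico n₀ (n₀ + N) with hs
  have hcard : s.card = N := by simp [hs]
  set F : α → ℝ := fun x => ∑ i ∈ s, f i x with hF
  have hFint : Integrable F μ := integrable_finsetSum _ fun i _ => hfint i
  have hF2 : ∀ x, F x ^ 2 = ∑ i ∈ s, ∑ j ∈ s, f i x * f j x := by
    intro x; rw [hF, sq, Finset.sum_mul_sum]
  have hF2int : Integrable (fun x => F x ^ 2) μ := by
    simp_rw [hF2]
    exact integrable_finsetSum _ fun i _ => integrable_finsetSum _ fun j _ => hffint i j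
  -- lower bound of the mean
  have hlow : N * ρ ≤ ∫ x, F x ∂μ := by
    rw [hF, integral_finsetSum _ (fun i _ => hfint i)]
    calc (N : ℝ) * ρ = ∑ _i ∈ s, ρ := by rw [Finset.sum_const, hcard, nsmul_eq_mul]
      _ ≤ ∑ i ∈ s, ∫ x, f i x ∂μ := Finset.sum_le_sum fun i _ => hint i
  -- upper bound of the second moment
  have hr : ∀ i ∈ s, ∀ j ∈ s, ∫ x, f i x * f j x ∂μ ≤
      (if i = j then M else ρ ^ 2 / (2 * (M + 1))) := by
    intro i hi j hj
    have hi' : n₀ ≤ i := (Finset.mem_Ico.mp hi).1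
    have hj' : n₀ ≤ j := (Finset.mem_Ico.mp hj).1
    split_ifs with hij
    · have : ∫ x, f i x * f j x ∂μ ≤ ∫ _x, (1 : ℝ) ∂μ :=
        integral_mono (hffint i j) (integrable_const _)
          (fun x => mul_le_one₀ (h1 i x) (h0 j x) (h1 j x))
      simpa [hM] using this
    · rcases lt_or_gt_of_ne hij with h | h
      · exact (hcon i j hi' h).le
      · have := (hcon j i hj' h).le
        simp_rw [mul_comm (f i _)]
        exact this
  have hup : ∫ x, F x ^ 2 ∂μ ≤ N * M + N ^ 2 * (ρ ^ 2 / (2 * (M + 1))) := by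
    simp_rw [hF2]
    rw [integral_finsetSum _ (fun i _ => integrable_finsetSum _ fun j _ => hffint i j)]
    have : ∀ i ∈ s, ∫ x, ∑ j ∈ s, f i x * f j x ∂μ ≤ M + N * (ρ ^ 2 / (2 * (M + 1))) := by
      intro i hi
      rw [integral_finsetSum _ (fun j _ => hffint i j)]
      calc ∑ j ∈ s, ∫ x, f i x * f j x ∂μ
          ≤ ∑ j ∈ s, (if i = j then M else ρ ^ 2 / (2 * (M + 1))) :=
            Finset.sum_le_sum fun j hj => hr i hi j hj
        _ ≤ ∑ j ∈ s, ((if i = j then M else 0) + ρ ^ 2 / (2 * (M + 1))) := by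
            apply Finset.sum_le_sum
            intro j _
            split_ifs
            · have : 0 ≤ ρ ^ 2 / (2 * (M + 1)) := by positivity
              linarith
            · simp
        _ = M + N * (ρ ^ 2 / (2 * (M + 1))) := by
            rw [Finset.sum_add_distrib, Finset.sum_ite_eq, if_pos hi, Finset.sum_const, hcard,
              nsmul_eq_mul]
    calc ∑ i ∈ s, ∫ x, ∑ j ∈ s, f i x * f j x ∂μ
        ≤ ∑ _i ∈ s, (M + N * (ρ ^ 2 / (2 * (M + 1)))) := Finset.sum_le_sum this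
      _ = N * M + N ^ 2 * (ρ ^ 2 / (2 * (M + 1))) := by
          rw [Finset.sum_const, hcard, nsmul_eq_mul]; ring
  -- Cauchy-Schwarz through the square of `F - c`
  set I : ℝ := ∫ x, F x ∂μ with hI
  have hCS : I ^ 2 ≤ (M + 1) * ∫ x, F x ^ 2 ∂μ := by
    have h := integral_nonneg (μ := μ) (f := fun x => (F x - I / (M + 1)) ^ 2)
      (fun x => sq_nonneg _)
    have hexp : ∫ x, (F x - I / (M + 1)) ^ 2 ∂μ
        = ∫ x, F x ^ 2 ∂μ - 2 * (I / (M + 1)) * I + (I / (M + 1)) ^ 2 * M := by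
      have : (fun x => (F x - I / (M + 1)) ^ 2)
          = fun x => (F x ^ 2 - (2 * (I / (M + 1))) * F x) + (I / (M + 1)) ^ 2 := by
        funext x; ring
      have hi1 : Integrable (fun x => 2 * (I / (M + 1)) * F x) μ := hFint.const_mul _
      have hi2 : Integrable (fun x => F x ^ 2 - 2 * (I / (M + 1)) * F x) μ := hF2int.sub hi1
      rw [this, integral_add hi2 (integrable_const _),
        integral_sub hF2int hi1, integral_const_mul, integral_const]
      simp only [smul_eq_mul, ← hM, ← hI]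
      ring
    rw [hexp] at h
    have hM1 : 0 < M + 1 := by linarith
    have e1 : (M + 1) * (I / (M + 1)) = I := by field_simp
    have h2 : 0 ≤ (M + 1) * (∫ x, F x ^ 2 ∂μ - 2 * (I / (M + 1)) * I + (I / (M + 1)) ^ 2 * M) :=
      mul_nonneg hM1.le h
    have h3 : (M + 1) * (I / (M + 1)) ^ 2 * M ≤ I ^ 2 := by
      have : (M + 1) * (I / (M + 1)) ^ 2 * M = I ^ 2 * (M / (M + 1)) := by field_simp
      rw [this]
      have : M / (M + 1) ≤ 1 := by rw [div_le_one hM1]; linarith
      nlinarith [sq_nonneg I]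
    nlinarith
  have hNρ : 0 ≤ N * ρ := by positivity
  have h4 : (N * ρ) ^ 2 ≤ (M + 1) * (N * M + N ^ 2 * (ρ ^ 2 / (2 * (M + 1)))) := by
    calc (N * ρ) ^ 2 ≤ I ^ 2 := pow_le_pow_left₀ hNρ hlow 2
      _ ≤ (M + 1) * ∫ x, F x ^ 2 ∂μ := hCS
      _ ≤ _ := mul_le_mul_of_nonneg_left hup (by linarith)
  have hNpos : (0 : ℝ) < N := lt_of_le_of_lt (by positivity) hN
  have h5 : (M + 1) * (N * M + N ^ 2 * (ρ ^ 2 / (2 * (M + 1)))) = (M + 1) * N * M + N ^ 2 * ρ ^ 2 / 2 := by
    field_simp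
  rw [h5] at h4
  have h6 : N ^ 2 * ρ ^ 2 / 2 ≤ (M + 1) * N * M := by nlinarith
  have h7 : N * ρ ^ 2 ≤ 2 * (M + 1) * M := by
    have : N * (N * ρ ^ 2) ≤ N * (2 * (M + 1) * M) := by nlinarith
    exact le_of_mul_le_mul_left this hNpos
  rw [div_lt_iff₀ (by positivity)] at hN
  nlinarith

end Pool.Agent.MP_e27144_an
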