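import Pool.Agent.MP_e27144_an.LeadDense
import Pool.Agent.MP_e27144_an.LeadPigeon

/-!
# Translates of measures invariant under multiplication by 2 and by 3
-/

open Set Filter Topology MeasureTheory
open scoped ENNReal NNReal

namespace Pool.Agent.MP_e27144_an

lemma measurable_smul_nat (n : ℕ) : Measurable (fun x : AddCircle (1 : ℝ) => n • x) :=
  (continuous_nsmul n).measurable

lemma mp_pow_one {μ : Measure (AddCircle (1 : ℝ))} {p : ℕ}
    (h : MeasurePreserving (fun x : AddCircle (1 : ℝ) => p • x) μ μ) (a : ℕ) :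
    MeasurePreserving (fun x : AddCircle (1 : ℝ) => (p ^ a : ℕ) • x) μ μ := by
  have := h.iterate a
  have heq : (fun x : AddCircle (1 : ℝ) => p • x)^[a] = fun x => (p ^ a : ℕ) • x := by
    induction a with
    | zero => funext x; simp
    | succ n ih =>
      have ih' := ih (h.iterate n)
      rw [Function.iterate_succ', ih']
      funext x
      simp only [Function.comp_apply]
      rw [← mul_smul, pow_succ, mul_comm]
  rwa [heq] at this

lemma mp_pow {μ : Measure (AddCircle (1 : ℝ))}
    (h2 : MeasurePreserving (fun x : AddCircle (1 : ℝ) => (2 : ℕ) • x) μ μ)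
    (h3 : MeasurePreserving (fun x : AddCircle (1 : ℝ) => (3 : ℕ) • x) μ μ) (a b : ℕ) :
    MeasurePreserving (fun x : AddCircle (1 : ℝ) => (2 ^ a * 3 ^ b : ℕ) • x) μ μ := by
  have := (mp_pow_one h2 a).comp (mp_pow_one h3 b)
  have heq : (fun x : AddCircle (1 : ℝ) => (2 ^ a : ℕ) • x) ∘ (fun x => (3 ^ b : ℕ) • x)
      = fun x => (2 ^ a * 3 ^ b : ℕ) • x := by
    funext x
    simp only [Function.comp_apply, ← mul_smul]
  rwa [heq] at this

/-- Pushing a translate forward by `x ↦ s • x`. -/
lemma map_translate {ν : Measure (AddCircle (1 : ℝ))} {s : ℕ}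
    (h : MeasurePreserving (fun x : AddCircle (1 : ℝ) => s • x) ν ν) (t : AddCircle (1 : ℝ)) :
    (ν.map (fun x => x + t)).map (fun x => s • x) = ν.map (fun x => x + s • t) := by
  rw [Measure.map_map (measurable_smul_nat s) (measurable_add_const t)]
  have : (fun x : AddCircle (1 : ℝ) => s • x) ∘ (fun x => x + t)
      = (fun x => x + s • t) ∘ (fun x => s • x) := by
    funext x; simp [smul_add]
  rw [this, ← Measure.map_map (measurable_add_const _) (measurable_smul_nat s), h.map_eq]

/-- No common part of `ν` and its small translates if `ν` is invariant and singular. -/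
lemma no_small_translates {ν : Measure (AddCircle (1 : ℝ))} [IsFiniteMeasure ν]
    (h2 : MeasurePreserving (fun x : AddCircle (1 : ℝ) => (2 : ℕ) • x) ν ν)
    (h3 : MeasurePreserving (fun x : AddCircle (1 : ℝ) => (3 : ℕ) • x) ν ν)
    (hs : ν ⟂ₘ volume) {r : ℝ≥0∞} (hr : r ≠ 0)
    (h : ∀ δ : ℝ, 0 < δ → ∃ (t : AddCircle (1 : ℝ)) (η : Measure (AddCircle (1 : ℝ))), t ≠ 0 ∧
      ‖t‖ < δ ∧ η ≤ ν ∧ η ≤ ν.map (fun x => x + t) ∧ r ≤ η univ) : False := by
  -- `r` is finite
  have hrtop : r ≠ ∞ := by
    obtain ⟨t, η, -, -, hη, -, hrη⟩ := h 1 one_pos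
    exact ne_top_of_le_ne_top (measure_ne_top ν univ) (hrη.trans (hη univ))
  have hr2 : r / 2 ≠ 0 := (ENNReal.half_pos hr).ne'
  -- a compact null set `K` carrying most of `ν`
  obtain ⟨K, hKc, hK0, hKν⟩ : ∃ K : Set (AddCircle (1 : ℝ)), IsCompact K ∧
      (volume : Measure (AddCircle (1 : ℝ))) K = 0 ∧ ν Kᶜ ≤ r / 2 := by
    have hE := hs.measurableSet_nullSet.compl
    obtain ⟨K, hKE, hKc, hK⟩ := hE.exists_isCompact_sdiff_lt (measure_ne_top ν _) hr2
    refine ⟨K, hKc, measure_mono_null hKE hs.measure_compl_nullSet, ?_⟩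
    have hsub : Kᶜ ⊆ (hs.nullSetᶜ \ K) ∪ hs.nullSet := by
      intro x hx
      by_cases hxN : x ∈ hs.nullSet
      · exact Or.inr hxN
      · exact Or.inl ⟨hxN, hx⟩
    calc ν Kᶜ ≤ ν ((hs.nullSetᶜ \ K) ∪ hs.nullSet) := measure_mono hsub
      _ ≤ ν (hs.nullSetᶜ \ K) + ν hs.nullSet := measure_union_le _ _
      _ ≤ r / 2 + 0 := add_le_add hK.le hs.measure_nullSet.le
      _ = r / 2 := add_zero _
  have hKm : MeasurableSet K := hKc.isClosed.measurableSet
  -- the set of translations for which `K` keeps mass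
  set D : Set (AddCircle (1 : ℝ)) := {y | r / 2 ≤ ν ((fun x => x - y) ⁻¹' K)} with hD
  have hDclosed : IsClosed D := isClosed_translate hKc _
  have hDdense : Dense D := by
    rw [Metric.dense_iff]
    intro y ε hε
    obtain ⟨δ, hδ, hδ'⟩ := orbit_dense_of_small hε
    obtain ⟨t, η, ht0, htδ, hην, hηt, hrη⟩ := h δ hδ
    obtain ⟨a, b, hab⟩ := hδ' t ht0 htδ y
    refine ⟨(2 ^ a * 3 ^ b : ℕ) • t, ?_, ?_⟩
    · rw [Metric.mem_ball, dist_eq_norm]; exact hab
    · have hmp := mp_pow h2 h3 a b
      set s : ℕ := 2 ^ a * 3 ^ b with hs'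
      have hms := measurable_smul_nat s
      set η' := η.map (fun x : AddCircle (1 : ℝ) => s • x) with hη'
      have h1 : η' ≤ ν := by
        rw [hη', ← hmp.map_eq]; exact Measure.map_mono hην hms
      have h2' : η' ≤ ν.map (fun x => x + s • t) := by
        rw [hη', ← map_translate hmp t]; exact Measure.map_mono hηt hms
      have hmass : r ≤ η' univ := by
        rw [hη', Measure.map_apply hms MeasurableSet.univ, preimage_univ]; exact hrη
      have hKy : MeasurableSet ((fun x => x - s • t) ⁻¹' K) := (measurable_sub_const _) hKm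
      have hcompl : η' ((fun x => x - s • t) ⁻¹' K)ᶜ ≤ r / 2 := by
        calc η' ((fun x => x - s • t) ⁻¹' K)ᶜ
            ≤ (ν.map (fun x => x + s • t)) ((fun x => x - s • t) ⁻¹' K)ᶜ := h2' _
          _ = ν Kᶜ := by
              rw [Measure.map_apply (measurable_add_const _) hKy.compl]
              congr 1
              ext x; simp
          _ ≤ r / 2 := hKν
      show r / 2 ≤ ν ((fun x => x - s • t) ⁻¹' K)
      have hsplit : η' univ ≤ η' ((fun x => x - s • t) ⁻¹' K) + r / 2 := by
        rw [← measure_add_measure_compl hKy]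
        exact add_le_add le_rfl hcompl
      have h3' : r / 2 + r / 2 ≤ η' ((fun x => x - s • t) ⁻¹' K) + r / 2 := by
        rw [ENNReal.add_halves]; exact hmass.trans hsplit
      have hr2top : r / 2 ≠ ∞ := ENNReal.div_ne_top hrtop (by norm_num)
      exact ((ENNReal.add_le_add_iff_right hr2top).mp h3').trans (h1 _)
  have hDuniv : D = univ := by
    rw [← hDclosed.closure_eq]; exact hDdense.closure_eq
  -- integrate over all translations
  have hint : ∫⁻ y, ν ((fun x => x - y) ⁻¹' K) ∂(volume : Measure (AddCircle (1 : ℝ))) = 0 := by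
    have hmeas : MeasurableSet {p : AddCircle (1 : ℝ) × AddCircle (1 : ℝ) | p.2 - p.1 ∈ K} :=
      (measurable_snd.sub measurable_fst) hKm
    have e1 : ∀ y : AddCircle (1 : ℝ), ν ((fun x => x - y) ⁻¹' K)
        = ν (Prod.mk y ⁻¹' {p : AddCircle (1 : ℝ) × AddCircle (1 : ℝ) | p.2 - p.1 ∈ K}) := by
      intro y; rfl
    simp_rw [e1]
    rw [← Measure.prod_apply hmeas, Measure.prod_apply_symm hmeas]
    rw [lintegral_eq_zero_iff' (by
      exact (measurable_measure_prodMk_right hmeas).aemeasurable)]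
    refine Eventually.of_forall fun x => ?_
    show volume ((fun y => (y, x)) ⁻¹' {p : AddCircle (1 : ℝ) × AddCircle (1 : ℝ) | p.2 - p.1 ∈ K}) = 0
    have e2 : (fun y => (y, x)) ⁻¹' {p : AddCircle (1 : ℝ) × AddCircle (1 : ℝ) | p.2 - p.1 ∈ K}
        = (fun y => x - y) ⁻¹' K := rfl
    rw [e2, (Measure.measurePreserving_sub_left volume x).measure_preimage hKm.nullMeasurableSet, hK0]
  have hlow : r / 2 ≤ ∫⁻ y, ν ((fun x => x - y) ⁻¹' K) ∂(volume : Measure (AddCircle (1 : ℝ))) := by
    calc r / 2 = ∫⁻ _y, r / 2 ∂(volume : Measure (AddCircle (1 : ℝ))) := by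
          rw [lintegral_const]; simp
      _ ≤ _ := by
          apply lintegral_mono
          intro y
          have : y ∈ D := by rw [hDuniv]; exact mem_univ y
          exact this
  rw [hint] at hlow
  exact hr2 (le_antisymm hlow zero_le)

lemma map_add_sub (ν : Measure (AddCircle (1 : ℝ))) (c d : AddCircle (1 : ℝ)) :
    (ν.map (fun x => x + c)).map (fun x => x + d) = ν.map (fun x => x + (c + d)) := by
  rw [Measure.map_map (measurable_add_const _) (measurable_add_const _)]
  congr 1
  funext x; simp [add_assoc]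

/-- Core finiteness statement, when the translated measure is singular. -/
lemma finite_translates {μ ν : Measure (AddCircle (1 : ℝ))} [IsFiniteMeasure μ] [IsFiniteMeasure ν]
    (h2 : MeasurePreserving (fun x : AddCircle (1 : ℝ) => (2 : ℕ) • x) ν ν)
    (h3 : MeasurePreserving (fun x : AddCircle (1 : ℝ) => (3 : ℕ) • x) ν ν)
    (hs : ν ⟂ₘ volume) {ρ : ℝ≥0∞} (hρ : ρ ≠ 0) :
    {c : AddCircle (1 : ℝ) | ρ ≤ (μ ⊓ ν.map (fun x => x + c)) univ}.Finite := by
  by_contra hinf
  replace hinf : Set.Infinite _ := hinf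
  set e := hinf.natEmbedding with he
  set c : ℕ → AddCircle (1 : ℝ) := fun n => (e n : AddCircle (1 : ℝ)) with hc
  have hcinj : Function.Injective c := Subtype.val_injective.comp e.injective
  have hcmem : ∀ n, ρ ≤ (μ ⊓ ν.map (fun x => x + c n)) univ := fun n => (e n).2
  have hρtop : ρ ≠ ∞ := ne_top_of_le_ne_top (measure_ne_top μ univ)
    ((hcmem 0).trans ((inf_le_left : μ ⊓ ν.map (fun x => x + c 0) ≤ μ) univ))
  obtain ⟨y, φ, hφ, hy⟩ := CompactSpace.tendsto_subseq c
  -- the common parts and their densities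
  set θ : ℕ → Measure (AddCircle (1 : ℝ)) := fun n => μ ⊓ ν.map (fun x => x + c (φ n)) with hθ
  have hθμ : ∀ n, θ n ≤ μ := fun n => inf_le_left
  have hθν : ∀ n, θ n ≤ ν.map (fun x => x + c (φ n)) := fun n => inf_le_right
  have hθfin : ∀ n, IsFiniteMeasure (θ n) := fun n => isFiniteMeasure_of_le μ (hθμ n)
  set g : ℕ → AddCircle (1 : ℝ) → ℝ≥0∞ := fun n x => min ((θ n).rnDeriv μ x) 1 with hg
  have hgm : ∀ n, Measurable (g n) := fun n => (Measure.measurable_rnDeriv _ _).min measurable_const
  have hg1 : ∀ n x, g n x ≤ 1 := fun n x => min_le_right _ _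
  have hgtop : ∀ n x, g n x ≠ ∞ := fun n x => ne_top_of_le_ne_top ENNReal.one_ne_top (hg1 n x)
  have hgθ : ∀ n, μ.withDensity (g n) = θ n := by
    intro n
    have := hθfin n
    have hae : g n =ᵐ[μ] (θ n).rnDeriv μ := by
      filter_upwards [Measure.rnDeriv_le_one_of_le (hθμ n)] with x hx
      exact min_eq_left hx
    have hdec : (θ n).HaveLebesgueDecomposition μ :=
      Measure.haveLebesgueDecomposition_of_sigmaFinite (θ n) μ
    rw [withDensity_congr_ae hae, Measure.withDensity_rnDeriv_eq _ _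
      (Measure.absolutelyContinuous_of_le (hθμ n))]
  have hρ' : 0 < ρ.toReal := ENNReal.toReal_pos hρ hρtop
  obtain ⟨r, hr, hr'⟩ := exists_integral_mul_ge μ hρ'
  have key := hr' (fun n x => (g n x).toReal) (fun n => (hgm n).ennreal_toReal)
    (fun n x => ENNReal.toReal_nonneg)
    (fun n x => by
      have := ENNReal.toReal_mono ENNReal.one_ne_top (hg1 n x)
      simpa using this)
    (fun n => by
      have h1 : ∫ x, (g n x).toReal ∂μ = (θ n univ).toReal := by
        rw [integral_toReal (hgm n).aemeasurable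
          (Eventually.of_forall fun x => (hgtop n x).lt_top), ← hgθ n,
          withDensity_apply _ MeasurableSet.univ, Measure.restrict_univ]
      show ρ.toReal ≤ ∫ x, (g n x).toReal ∂μ
      rw [h1]
      have := hθfin n
      exact ENNReal.toReal_mono (measure_ne_top _ _) (hcmem (φ n)))
  refine no_small_translates h2 h3 hs (r := ENNReal.ofReal r) (by simpa using hr) ?_
  intro δ hδ
  obtain ⟨n₀, hn₀⟩ := Metric.tendsto_atTop.mp hy (δ / 2) (by positivity)
  obtain ⟨i, j, hi, hij, hrij⟩ := key n₀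
  set t : AddCircle (1 : ℝ) := c (φ j) - c (φ i) with ht
  set η : Measure (AddCircle (1 : ℝ)) := μ.withDensity (fun x => g i x * g j x) with hη
  have hηi : η ≤ θ i := by
    rw [hη, ← hgθ i]
    apply withDensity_mono
    exact Eventually.of_forall fun x => mul_le_of_le_one_right zero_le (hg1 j x)
  have hηj : η ≤ θ j := by
    rw [hη, ← hgθ j]
    apply withDensity_mono
    exact Eventually.of_forall fun x => mul_le_of_le_one_left zero_le (hg1 i x)
  refine ⟨t, η.map (fun x => x + -c (φ i)), ?_, ?_, ?_, ?_, ?_⟩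
  · rw [ht, sub_ne_zero]
    intro h
    exact hij.ne' (hφ.injective (hcinj h))
  · have h1 := hn₀ i hi
    have h2' := hn₀ j (hi.trans hij.le)
    simp only [Function.comp_apply] at h1 h2'
    calc ‖t‖ = dist (c (φ j)) (c (φ i)) := by rw [dist_eq_norm]
      _ ≤ dist (c (φ j)) y + dist (c (φ i)) y := dist_triangle_right _ _ _
      _ < δ := by linarith
  · calc η.map (fun x => x + -c (φ i))
        ≤ (ν.map (fun x => x + c (φ i))).map (fun x => x + -c (φ i)) :=
          Measure.map_mono (hηi.trans (hθν i)) (measurable_add_const _)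
      _ = ν := by rw [map_add_sub]; simp
  · calc η.map (fun x => x + -c (φ i))
        ≤ (ν.map (fun x => x + c (φ j))).map (fun x => x + -c (φ i)) :=
          Measure.map_mono (hηj.trans (hθν j)) (measurable_add_const _)
      _ = ν.map (fun x => x + t) := by rw [map_add_sub, ht, sub_eq_add_neg]
  · rw [Measure.map_apply (measurable_add_const _) MeasurableSet.univ, preimage_univ, hη,
      withDensity_apply _ MeasurableSet.univ, Measure.restrict_univ]
    have h1 : ∫ x, (g i x).toReal * (g j x).toReal ∂μ = (∫⁻ x, g i x * g j x ∂μ).toReal := by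
      simp_rw [← ENNReal.toReal_mul]
      exact integral_toReal ((hgm i).mul (hgm j)).aemeasurable
        (Eventually.of_forall fun x => (ENNReal.mul_ne_top (hgtop i x) (hgtop j x)).lt_top)
    have hfin : ∫⁻ x, g i x * g j x ∂μ ≠ ∞ := by
      refine ne_top_of_le_ne_top (measure_ne_top μ univ) ?_
      calc ∫⁻ x, g i x * g j x ∂μ ≤ ∫⁻ _x, 1 ∂μ :=
            lintegral_mono fun x => mul_le_one' (hg1 i x) (hg1 j x)
        _ = μ univ := by simp
    rw [h1] at hrij
    exact (ENNReal.ofReal_le_iff_le_toReal hfin).mpr hrij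

end Pool.Agent.MP_e27144_an
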