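import Mathlib

/-!
# The multiplicative semigroup generated by 2 and 3 is not lacunary
-/

open Set Filter Topology

namespace Pool.Agent.MP_e27144_an

/-- `log 2 / log 3` is irrational. -/
lemma irrational_log_two_div_log_three : Irrational (Real.log 2 / Real.log 3) := by
  rintro ⟨r, hr⟩
  have h2 : 0 < Real.log 2 := Real.log_pos (by norm_num)
  have h3 : 0 < Real.log 3 := Real.log_pos (by norm_num)
  have hrpos : 0 < (r : ℝ) := by rw [hr]; positivity
  have hr0 : 0 < r := by exact_mod_cast hrpos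
  have hnum : 0 < r.num := Rat.num_pos.mpr hr0
  obtain ⟨m, hm⟩ : ∃ m : ℕ, r.num = m := ⟨r.num.toNat, (Int.toNat_of_nonneg hnum.le).symm⟩
  have hmpos : 0 < m := by omega
  have hr' : (r : ℝ) = m / r.den := by
    rw [Rat.cast_def, hm]; simp
  have hden : (0 : ℝ) < r.den := by exact_mod_cast r.den_pos
  have key : (r.den : ℝ) * Real.log 2 = m * Real.log 3 := by
    rw [hr'] at hr
    field_simp at hr
    linarith
  have key2 : Real.log ((2 : ℝ) ^ r.den) = Real.log ((3 : ℝ) ^ m) := by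
    rw [Real.log_pow, Real.log_pow]; exact key
  have key3 : (2 : ℝ) ^ r.den = 3 ^ m :=
    Real.log_injOn_pos (by simp [Set.mem_Ioi]) (by simp [Set.mem_Ioi]) key2
  have key4 : (2 : ℕ) ^ r.den = 3 ^ m := by exact_mod_cast key3
  have hodd : Odd (3 ^ m : ℕ) := Odd.pow (by decide)
  have heven : Even (2 ^ r.den : ℕ) := (even_two).pow_of_ne_zero (by exact r.den_pos.ne')
  rw [key4] at heven
  exact (Nat.not_even_iff_odd.mpr hodd) heven

/-- Non-lacunarity along one type of ratio. -/
lemma exists_between_of_ratio {p q : ℝ} (hp : 1 < p) (hq : 1 < q) {k l : ℕ} (hl : 0 < k)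
    {u : ℝ} (h1 : p ^ k < q ^ l) (h2 : q ^ l < u * p ^ k) :
    ∃ X₀ : ℝ, 1 ≤ X₀ ∧ ∀ X, X₀ ≤ X → ∃ a b : ℕ, p ^ a * q ^ b ≤ X ∧ X < u * (p ^ a * q ^ b) := by
  set v : ℝ := q ^ l / p ^ k with hv
  have hpk : 0 < p ^ k := by positivity
  have hv1 : 1 < v := by rw [hv, one_lt_div hpk]; exact h1
  have hvu : v < u := by rw [hv, div_lt_iff₀ hpk]; exact h2
  have hu : 0 < u := by linarith
  obtain ⟨N, hN⟩ := pow_unbounded_of_one_lt p hv1
  refine ⟨p ^ (N * k), one_le_pow₀ hp.le, fun X hX => ?_⟩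
  have hXpos : 0 < X := lt_of_lt_of_le (by positivity) hX
  -- largest power of `p` below `X`
  obtain ⟨a, ha1, ha2⟩ : ∃ a : ℕ, p ^ a ≤ X ∧ X < p ^ (a + 1) :=
    exists_nat_pow_near (le_trans (one_le_pow₀ hp.le) hX) hp
  have haN : N * k ≤ a := by
    by_contra hcon
    push Not at hcon
    have : p ^ (a + 1) ≤ p ^ (N * k) := pow_le_pow_right₀ hp.le hcon
    linarith
  -- largest `j` with `p ^ a * v ^ j ≤ X`
  have hXa : 1 ≤ X / p ^ a := by rw [le_div_iff₀ (by positivity)]; simpa using ha1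
  obtain ⟨j, hj1, hj2⟩ : ∃ j : ℕ, v ^ j ≤ X / p ^ a ∧ X / p ^ a < v ^ (j + 1) :=
    exists_nat_pow_near hXa hv1
  have hjN : j < N := by
    have h3 : X / p ^ a < p := by
      rw [div_lt_iff₀ (by positivity)]; rw [pow_succ] at ha2; linarith
    by_contra hcon
    push Not at hcon
    have : v ^ N ≤ v ^ j := pow_le_pow_right₀ hv1.le hcon
    linarith
  have hjk : j * k ≤ a := le_trans (Nat.mul_le_mul_right k hjN.le) haN
  have heq : p ^ (a - j * k) * q ^ (j * l) = p ^ a * v ^ j := by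
    have : p ^ a = p ^ (a - j * k) * (p ^ k) ^ j := by
      rw [← pow_mul, mul_comm k j, ← pow_add, Nat.sub_add_cancel hjk]
    rw [this, hv, div_pow, mul_comm j l, pow_mul]
    field_simp
  refine ⟨a - j * k, j * l, ?_, ?_⟩
  · rw [heq]
    rw [le_div_iff₀ (by positivity)] at hj1
    linarith
  · rw [heq]
    rw [div_lt_iff₀ (by positivity), pow_succ] at hj2
    have : 0 < p ^ a * v ^ j := by positivity
    nlinarith

/-- The semigroup `{2 ^ a * 3 ^ b}` is not lacunary: for every `u > 1`, every large `X` has an element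
of the semigroup in `(X / u, X]`. -/
lemma exists_between {u : ℝ} (hu : 1 < u) :
    ∃ X₀ : ℝ, 1 ≤ X₀ ∧ ∀ X, X₀ ≤ X →
      ∃ a b : ℕ, (2 : ℝ) ^ a * 3 ^ b ≤ X ∧ X < u * (2 ^ a * 3 ^ b) := by
  have h2 : 0 < Real.log 2 := Real.log_pos (by norm_num)
  have h3 : 0 < Real.log 3 := Real.log_pos (by norm_num)
  have hd : Dense (AddSubgroup.closure {Real.log 2, Real.log 3} : Set ℝ) :=
    dense_addSubgroupClosure_pair_iff.mpr irrational_log_two_div_log_three
  set w : ℝ := min (Real.log u) (Real.log 2) with hw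
  have hwpos : 0 < w := lt_min (Real.log_pos hu) h2
  obtain ⟨x, hx1, hx2⟩ := hd.exists_mem_open isOpen_Ioo (Set.nonempty_Ioo.mpr hwpos)
  obtain ⟨m, n, hmn⟩ := AddSubgroup.mem_closure_pair.mp hx1
  simp only [zsmul_eq_mul] at hmn
  have hx0 : 0 < x := hx2.1
  have hxu : x < Real.log u := lt_of_lt_of_le hx2.2 (min_le_left _ _)
  have hxl : x < Real.log 2 := lt_of_lt_of_le hx2.2 (min_le_right _ _)
  have h23 : Real.log 2 < Real.log 3 := Real.log_lt_log (by norm_num) (by norm_num)
  -- signs of `m` and `n`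
  rcases lt_or_ge 0 m with hm | hm
  · -- `m > 0`, so `n < 0`
    have hn : n < 0 := by
      by_contra hcon
      push Not at hcon
      have h4 : (1 : ℝ) ≤ m := by exact_mod_cast hm
      have h5 : (0 : ℝ) ≤ n := by exact_mod_cast hcon
      nlinarith
    obtain ⟨k, hk⟩ : ∃ k : ℕ, m = k := ⟨m.toNat, (Int.toNat_of_nonneg hm.le).symm⟩
    obtain ⟨l, hl⟩ : ∃ l : ℕ, -n = l := ⟨(-n).toNat, (Int.toNat_of_nonneg (by omega)).symm⟩
    have hl' : (n : ℝ) = -l := by
      have : n = -(l : ℤ) := by omega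
      rw [this]; push_cast; ring
    have hk' : (m : ℝ) = k := by rw [hk]; simp
    have hlpos : 0 < l := by omega
    rw [hl', hk'] at hmn
    have hlt1 : (3 : ℝ) ^ l < 2 ^ k := by
      have : Real.log ((3 : ℝ) ^ l) < Real.log (2 ^ k) := by
        rw [Real.log_pow, Real.log_pow]; linarith
      exact (Real.log_lt_log_iff (by positivity) (by positivity)).mp this
    have hlt2 : (2 : ℝ) ^ k < u * 3 ^ l := by
      have : Real.log ((2 : ℝ) ^ k) < Real.log (u * 3 ^ l) := by
        rw [Real.log_mul (by positivity) (by positivity), Real.log_pow, Real.log_pow]; linarith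
      exact (Real.log_lt_log_iff (by positivity) (by positivity)).mp this
    obtain ⟨X₀, hX₀, hX⟩ := exists_between_of_ratio (p := 3) (q := 2) (by norm_num) (by norm_num)
      hlpos hlt1 hlt2
    refine ⟨X₀, hX₀, fun X h => ?_⟩
    obtain ⟨a, b, hab, hab'⟩ := hX X h
    exact ⟨b, a, by linarith [mul_comm ((2 : ℝ) ^ b) (3 ^ a)], by
      rw [mul_comm ((2 : ℝ) ^ b) (3 ^ a)]; exact hab'⟩
  · have hn : 0 < n := by
      by_contra hcon
      push Not at hcon
      have h4 : (m : ℝ) ≤ 0 := by exact_mod_cast hm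
      have h5 : (n : ℝ) ≤ 0 := by exact_mod_cast hcon
      nlinarith
    have hm' : m < 0 := by
      rcases lt_or_eq_of_le hm with h | h
      · exact h
      · exfalso
        have h5 : (1 : ℝ) ≤ n := by exact_mod_cast hn
        rw [h] at hmn
        push_cast at hmn
        nlinarith
    obtain ⟨l, hl⟩ : ∃ l : ℕ, n = l := ⟨n.toNat, (Int.toNat_of_nonneg hn.le).symm⟩
    obtain ⟨k, hk⟩ : ∃ k : ℕ, -m = k := ⟨(-m).toNat, (Int.toNat_of_nonneg (by omega)).symm⟩
    have hk' : (m : ℝ) = -k := by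
      have : m = -(k : ℤ) := by omega
      rw [this]; push_cast; ring
    have hl' : (n : ℝ) = l := by rw [hl]; simp
    have hkpos : 0 < k := by omega
    rw [hl', hk'] at hmn
    have hlt1 : (2 : ℝ) ^ k < 3 ^ l := by
      have : Real.log ((2 : ℝ) ^ k) < Real.log (3 ^ l) := by
        rw [Real.log_pow, Real.log_pow]; linarith
      exact (Real.log_lt_log_iff (by positivity) (by positivity)).mp this
    have hlt2 : (3 : ℝ) ^ l < u * 2 ^ k := by
      have : Real.log ((3 : ℝ) ^ l) < Real.log (u * 2 ^ k) := by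
        rw [Real.log_mul (by positivity) (by positivity), Real.log_pow, Real.log_pow]; linarith
      exact (Real.log_lt_log_iff (by positivity) (by positivity)).mp this
    exact exists_between_of_ratio (p := 2) (q := 3) (by norm_num) (by norm_num)
      hkpos hlt1 hlt2

end Pool.Agent.MP_e27144_an
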